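import Mathlib

set_option autoImplicit false

/-!
# The digits are determined by the integer
-/

namespace Pool.Agent.D0H92.QC

open Finset

lemma digits_inj (B : ℕ) (hB : 0 < B) : ∀ {N : ℕ} (d d' : Fin N → ℕ), (∀ j, d j < B) → (∀ j, d' j < B) →
    ∑ j : Fin N, B ^ (j : ℕ) * d j = ∑ j : Fin N, B ^ (j : ℕ) * d' j → d = d' := by
  intro N
  induction N with
  | zero => intro d d' _ _ _; exact Subsingleton.elim _ _
  | succ N ih =>
    intro d d' hd hd' h
    rw [Fin.sum_univ_succ, Fin.sum_univ_succ] at h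
    have e : ∀ x : Fin (N + 1) → ℕ, ∑ i : Fin N, B ^ ((i.succ : Fin (N + 1)) : ℕ) * x i.succ =
        B * ∑ i : Fin N, B ^ (i : ℕ) * x i.succ := by
      intro x
      rw [mul_sum]
      refine sum_congr rfl fun i _ => ?_
      rw [Fin.val_succ, pow_succ]
      ring
    rw [e, e] at h
    simp only [Fin.val_zero, pow_zero, one_mul] at h
    have h0 : d 0 = d' 0 := by
      have h1 : (d 0 + B * ∑ i : Fin N, B ^ (i : ℕ) * d i.succ) % B =
          (d' 0 + B * ∑ i : Fin N, B ^ (i : ℕ) * d' i.succ) % B := by rw [h]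
      rwa [Nat.add_mul_mod_self_left, Nat.add_mul_mod_self_left, Nat.mod_eq_of_lt (hd 0),
        Nat.mod_eq_of_lt (hd' 0)] at h1
    have h2 : ∑ i : Fin N, B ^ (i : ℕ) * d i.succ = ∑ i : Fin N, B ^ (i : ℕ) * d' i.succ := by
      rw [h0] at h
      exact Nat.eq_of_mul_eq_mul_left hB (Nat.add_left_cancel h)
    have h3 := ih (fun i => d i.succ) (fun i => d' i.succ) (fun i => hd _) (fun i => hd' _) h2
    funext i
    refine Fin.cases h0 (fun i => ?_) i
    exact congrFun h3 i

end Pool.Agent.D0H92.QC
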