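import Pool.Agent.D0H92.QC.Fin2

set_option autoImplicit false

/-!
# Almost all members of a digit family
-/

namespace Pool.Agent.D0H92.QC

open Finset Filter Pool.Agent.D0H92.AG Pool.Agent.D0H92.RG

/-- `d` is the discriminant of `ℚ(√n)` -/
def IsDiscOf (d n : ℤ) : Prop := Disc d ∧ n ≠ 0 ∧ IsSquare (n * d)

noncomputable def total (T : Set ℕ) (t : ℝ) : ℕ := Set.ncard {p : ℕ | p.Prime ∧ p ∈ T ∧ (p : ℝ) < t}

noncomputable def split (T : Set ℕ) (d : ℤ) (t : ℝ) : ℕ := Set.ncard {p : ℕ | p.Prime ∧ p ∈ T ∧ (p : ℝ) < t ∧ Splits d p}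

def Half (κ δ ρ : ℝ) (T : Set ℕ) (d : ℤ) : Prop :=
  ∀ t : ℝ, t ≤ |(d : ℝ)| ^ κ → Real.log |(d : ℝ)| ^ (1 + δ) ≤ total T t → t ^ ρ ≤ total T t →
    |2 * (split T d t : ℝ) - total T t| ≤ (total T t : ℝ) ^ (1 - κ)

open Classical in
/-- the primes up to `y` in a set -/
noncomputable def PQ (T : Set ℕ) (y : ℕ) : Finset ℕ := (range (y + 1)).filter fun p => p.Prime ∧ p ∈ T

open Classical in
lemma total_eq (T : Set ℕ) (t : ℝ) (ht : 0 < t) : total T t = (PQ T (⌈t⌉₊ - 1)).card := by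
  have h1 : ⌈t⌉₊ - 1 + 1 = ⌈t⌉₊ := Nat.sub_add_cancel (Nat.one_le_ceil_iff.2 ht)
  unfold total PQ
  rw [h1, ← Set.ncard_coe_finset]
  congr 1
  ext p
  simp only [Set.mem_ofPred_eq, coe_filter, mem_range, Nat.lt_ceil]
  tauto

open Classical in
lemma split_eq (T : Set ℕ) (d : ℤ) (t : ℝ) (ht : 0 < t) : split T d t = ((PQ T (⌈t⌉₊ - 1)).filter (Splits d)).card := by
  have h1 : ⌈t⌉₊ - 1 + 1 = ⌈t⌉₊ := Nat.sub_add_cancel (Nat.one_le_ceil_iff.2 ht)
  unfold split PQ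
  rw [h1, ← Set.ncard_coe_finset]
  congr 1
  ext p
  simp only [Set.mem_ofPred_eq, coe_filter, mem_range, Nat.lt_ceil, mem_filter]
  tauto

lemma total_nonpos (T : Set ℕ) (t : ℝ) (ht : t ≤ 0) : total T t = 0 := by
  unfold total
  rw [Set.ncard_eq_zero (Set.finite_empty.subset ?_)]
  · ext p
    simp only [Set.mem_ofPred_eq, Set.mem_empty_iff_false, iff_false]
    rintro ⟨_, _, h⟩
    have : (0 : ℝ) ≤ p := Nat.cast_nonneg _
    linarith
  · rintro p ⟨_, _, h⟩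
    have : (0 : ℝ) ≤ p := Nat.cast_nonneg _
    exfalso
    linarith

lemma card_family (B N : ℕ) (A : Fin N → Finset ℕ) (hA : ∀ j, ∀ a ∈ A j, a < B) :
    ((Fintype.piFinset A).card : ℝ) ≤ (B : ℝ) ^ N := by
  rw [Fintype.card_piFinset]
  have h1 : ∏ j, (A j).card ≤ ∏ _j : Fin N, B := by
    apply prod_le_prod' fun j _ => ?_
    have h2 : A j ⊆ range B := fun a ha => mem_range.2 (hA j a ha)
    have := card_le_card h2
    rwa [card_range] at this
  rw [prod_const, card_univ, Fintype.card_fin] at h1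
  exact_mod_cast h1

lemma card_family' (N : ℕ) (A : Fin N → Finset ℕ) (h2 : ∀ j, 2 ≤ (A j).card) :
    (2 : ℝ) ^ N ≤ ((Fintype.piFinset A).card : ℝ) := by
  rw [Fintype.card_piFinset]
  have h1 : ∏ _j : Fin N, 2 ≤ ∏ j, (A j).card := prod_le_prod' fun j _ => h2 j
  rw [prod_const, card_univ, Fintype.card_fin] at h1
  exact_mod_cast h1

open Classical in
theorem single (B : ℕ) (hB : 2 ≤ B) (C δ ρ : ℝ) (hC : 0 ≤ C) (hδ : 0 < δ) (hρ : 0 < ρ) (hρ1 : ρ ≤ 1) :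
    ∃ κ₀ b : ℝ, 0 < κ₀ ∧ 0 < b ∧ ∀ κ : ℝ, 0 < κ → κ ≤ κ₀ → ∃ N₀ : ℕ, ∀ N : ℕ, N₀ ≤ N → ∀ (c g : ℤ), g ≠ 0 →
      |(c : ℝ)| ≤ Real.exp (C * N) → |(g : ℝ)| ≤ Real.exp (C * N) →
      ∀ A : Fin N → Finset ℕ, (∀ j, ∀ a ∈ A j, a < B) → (∀ j, 2 ≤ (A j).card) → ∀ T : Set ℕ,
      (((Fintype.piFinset A).filter fun t => ¬ ∀ d, IsDiscOf d (num c g B t) →
          ((Fintype.piFinset A).card : ℝ) ^ κ ≤ |(d : ℝ)| → Half κ δ ρ T d).card : ℝ) ≤
        (Fintype.piFinset A).card * Real.exp (-(b * N)) := by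
  obtain ⟨α, β, hα, hα16, hβ, hβ1, N₁, hN₁⟩ := half_set B hB C (δ / 2) ρ hC (by positivity) hρ hρ1
  have hlB : 0 ≤ Real.log B := Real.log_nonneg (by exact_mod_cast (by omega : 1 ≤ B))
  set C₂ : ℝ := C + Real.log B + 3 with hC₂
  have hC₂0 : 0 < C₂ := by positivity
  refine ⟨min α (β / (2 * C₂)), β / 4, lt_min hα (by positivity), by positivity, ?_⟩
  intro κ hκ hκ0
  have hκα : κ ≤ α := hκ0.trans (min_le_left _ _)
  have hκβ : κ * C₂ ≤ β / 2 := by
    have := hκ0.trans (min_le_right _ _)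
    rw [le_div_iff₀ (by positivity)] at this
    linarith
  -- the conditions on `N`
  have e1 : ∀ᶠ N : ℕ in atTop, 4 ≤ Real.exp (β / 4 * N) := by
    have h1 : Tendsto (fun N : ℕ => β / 4 * (N : ℝ)) atTop atTop :=
      Tendsto.const_mul_atTop (by positivity) tendsto_natCast_atTop_atTop
    exact (Real.tendsto_exp_atTop.comp h1).eventually_ge_atTop 4
  have e2 : ∀ᶠ N : ℕ in atTop, ((κ * Real.log 2)⁻¹) ^ (1 + δ) ≤ (N : ℝ) ^ (δ / 2) :=
    ((tendsto_rpow_atTop (show 0 < δ / 2 by positivity)).comp tendsto_natCast_atTop_atTop).eventually_ge_atTop _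
  obtain ⟨N₂, hN₂⟩ := eventually_atTop.1 (e1.and e2)
  refine ⟨N₁ + N₂ + 1, ?_⟩
  intro N hN c g hg hcN hgN A hA h2 T
  obtain ⟨hN3, hN4⟩ := hN₂ N (by omega)
  have hN1 : 1 ≤ N := by omega
  have hN1' : (1 : ℝ) ≤ N := by exact_mod_cast hN1
  have hN0 : (0 : ℝ) < N := by linarith
  set F := Fintype.piFinset A with hF
  have hFB : (F.card : ℝ) ≤ (B : ℝ) ^ N := card_family B N A hA
  have hF2 : (2 : ℝ) ^ N ≤ F.card := card_family' N A h2
  set X : ℕ := ⌊Real.exp (β / 2 * N)⌋₊ with hX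
  have hXle : (X : ℝ) ≤ Real.exp (β / 2 * N) := Nat.floor_le (Real.exp_pos _).le
  let E : ℕ → Finset (Fin N → ℕ) := fun y =>
    if (N : ℝ) ^ (1 + δ / 2) ≤ (PQ T y).card ∧ (y : ℝ) ^ ρ ≤ (PQ T y).card then
      F.filter fun t => ¬ ∀ d, Disc d → num c g B t ≠ 0 → IsSquare (num c g B t * d) →
          |2 * (((PQ T y).filter (Splits d)).card : ℝ) - (PQ T y).card| ≤ ((PQ T y).card : ℝ) ^ (1 - α)
    else ∅
  have hE : ∀ y ∈ range (X + 1), ((E y).card : ℝ) ≤ F.card * (2 * Real.exp (-(β * N))) := by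
    intro y hy
    by_cases hcond : (N : ℝ) ^ (1 + δ / 2) ≤ (PQ T y).card ∧ (y : ℝ) ^ ρ ≤ (PQ T y).card
    · have : E y = _ := if_pos hcond
      rw [this]
      refine hN₁ N (by omega) c g hg hcN hgN A hA h2 (PQ T y) y (fun p hp => (mem_filter.1 hp).2.1)
        (fun p hp => ?_) ?_ hcond.1 hcond.2
      · have := mem_range.1 (mem_filter.1 hp).1
        omega
      · rcases Nat.eq_zero_or_pos y with h0 | h0
        · rw [h0]; simp; positivity
        · rw [Real.log_le_iff_le_exp (by exact_mod_cast h0)]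
          have h3 : (y : ℝ) ≤ X := by
            have := mem_range.1 hy
            exact_mod_cast (by omega : y ≤ X)
          refine (h3.trans hXle).trans (Real.exp_le_exp.2 ?_)
          nlinarith
    · have : E y = ∅ := if_neg hcond
      rw [this, card_empty, Nat.cast_zero]
      positivity
  have hsub : (F.filter fun t => ¬ ∀ d, IsDiscOf d (num c g B t) → (F.card : ℝ) ^ κ ≤ |(d : ℝ)| → Half κ δ ρ T d) ⊆
      (range (X + 1)).biUnion E := by
    intro t ht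
    rw [mem_filter] at ht
    obtain ⟨htF, ht2⟩ := ht
    push Not at ht2
    obtain ⟨d, ⟨hd, hn, hsq⟩, hdF, hhalf⟩ := ht2
    unfold Half at hhalf
    push Not at hhalf
    obtain ⟨x, hx1, hx2, hx3, hx4⟩ := hhalf
    have htB : ∀ j, t j < B := fun j => hA j _ (Fintype.mem_piFinset.1 htF j)
    -- the size of the discriminant
    have hd1 : |(d : ℝ)| ≤ Real.exp (C₂ * N) := by
      have h3 := size hn (form hd hsq)
      have h4 : |(d : ℝ)| ≤ 4 * |(num c g B t : ℝ)| := by exact_mod_cast h3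
      have h5 := num_size hB hN1 hcN hgN t htB
      have h6 : (4 : ℝ) ≤ Real.exp (2 * N) := by
        have h7 : (2 : ℝ) ≤ Real.exp N := by
          have := Real.add_one_le_exp (N : ℝ)
          linarith
        have h8 : Real.exp (2 * N) = Real.exp N * Real.exp N := by rw [← Real.exp_add]; congr 1; ring
        rw [h8]
        nlinarith
      calc |(d : ℝ)| ≤ 4 * |(num c g B t : ℝ)| := h4
        _ ≤ Real.exp (2 * N) * Real.exp ((C + Real.log B + 1) * N) := mul_le_mul h6 h5 (abs_nonneg _) (Real.exp_pos _).le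
        _ = _ := by rw [← Real.exp_add, hC₂]; congr 1; ring
    have hd0 : 0 < |(d : ℝ)| := abs_pos.2 (by exact_mod_cast disc_ne hd)
    have hlogd : κ * Real.log 2 * N ≤ Real.log |(d : ℝ)| := by
      have h3 : ((2 : ℝ) ^ N) ^ κ ≤ |(d : ℝ)| := (Real.rpow_le_rpow (by positivity) hF2 hκ.le).trans hdF
      have h4 := Real.log_le_log (by positivity) h3
      rw [Real.log_rpow (by positivity), Real.log_pow] at h4
      linarith
    have hl2 : 0 < Real.log 2 := Real.log_pos (by norm_num)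
    have hkl : 0 < κ * Real.log 2 := by positivity
    have hld0 : 0 < Real.log |(d : ℝ)| := lt_of_lt_of_le (by positivity) hlogd
    have hx0 : 0 < x := by
      by_contra hcon
      rw [not_lt] at hcon
      rw [total_nonpos T x hcon, Nat.cast_zero] at hx2
      have : 0 < Real.log |(d : ℝ)| ^ (1 + δ) := Real.rpow_pos_of_pos hld0 _
      linarith
    rw [total_eq T x hx0] at hx2 hx3 hx4
    rw [split_eq T d x hx0] at hx4
    obtain ⟨y, hy⟩ : ∃ y, y = ⌈x⌉₊ - 1 := ⟨_, rfl⟩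
    rw [← hy] at hx2 hx3 hx4
    have hyx : (y : ℝ) ≤ x := by
      have h3 : y + 1 = ⌈x⌉₊ := by rw [hy]; exact Nat.sub_add_cancel (Nat.one_le_ceil_iff.2 hx0)
      have h4 : y < ⌈x⌉₊ := by omega
      exact (Nat.lt_ceil.1 h4).le
    have hyX : y ≤ X := by
      apply Nat.le_floor
      refine hyx.trans (hx1.trans ?_)
      calc |(d : ℝ)| ^ κ ≤ (Real.exp (C₂ * N)) ^ κ := Real.rpow_le_rpow hd0.le hd1 hκ.le
        _ = Real.exp (κ * C₂ * N) := by rw [← Real.exp_mul]; congr 1; ring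
        _ ≤ Real.exp (β / 2 * N) := Real.exp_le_exp.2 (mul_le_mul_of_nonneg_right hκβ hN0.le)
    have hc1 : (N : ℝ) ^ (1 + δ / 2) ≤ (PQ T y).card := by
      refine le_trans ?_ hx2
      calc (N : ℝ) ^ (1 + δ / 2) = (κ * Real.log 2) ^ (1 + δ) * (((κ * Real.log 2)⁻¹) ^ (1 + δ) * (N : ℝ) ^ (1 + δ / 2)) := by
            rw [← mul_assoc, ← Real.mul_rpow hkl.le (by positivity), mul_inv_cancel₀ hkl.ne', Real.one_rpow, one_mul]
        _ ≤ (κ * Real.log 2) ^ (1 + δ) * ((N : ℝ) ^ (δ / 2) * (N : ℝ) ^ (1 + δ / 2)) := by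
            apply mul_le_mul_of_nonneg_left _ (by positivity)
            exact mul_le_mul_of_nonneg_right hN4 (by positivity)
        _ = (κ * Real.log 2) ^ (1 + δ) * (N : ℝ) ^ (1 + δ) := by
            rw [← Real.rpow_add hN0]
            congr 2
            ring
        _ = (κ * Real.log 2 * N) ^ (1 + δ) := by rw [← Real.mul_rpow hkl.le hN0.le]
        _ ≤ Real.log |(d : ℝ)| ^ (1 + δ) := Real.rpow_le_rpow (by positivity) hlogd (by linarith)
    have hc2 : (y : ℝ) ^ ρ ≤ (PQ T y).card := (Real.rpow_le_rpow (Nat.cast_nonneg _) hyx hρ.le).trans hx3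
    rw [mem_biUnion]
    refine ⟨y, mem_range.2 (by omega), ?_⟩
    have : E y = _ := if_pos ⟨hc1, hc2⟩
    rw [this, mem_filter]
    refine ⟨htF, fun hall => ?_⟩
    have h3 := hall d hd hn hsq
    have hs1 : (1 : ℝ) ≤ (PQ T y).card := (Real.one_le_rpow hN1' (by linarith)).trans hc1
    have h4 : ((PQ T y).card : ℝ) ^ (1 - α) ≤ ((PQ T y).card : ℝ) ^ (1 - κ) :=
      Real.rpow_le_rpow_of_exponent_le hs1 (by linarith)
    linarith
  calc ((F.filter fun t => ¬ ∀ d, IsDiscOf d (num c g B t) → (F.card : ℝ) ^ κ ≤ |(d : ℝ)| → Half κ δ ρ T d).card : ℝ)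
      ≤ (((range (X + 1)).biUnion E).card : ℝ) := by exact_mod_cast card_le_card hsub
    _ ≤ ((∑ y ∈ range (X + 1), (E y).card : ℕ) : ℝ) := by exact_mod_cast card_biUnion_le
    _ = ∑ y ∈ range (X + 1), ((E y).card : ℝ) := by push_cast; rfl
    _ ≤ ∑ _y ∈ range (X + 1), (F.card : ℝ) * (2 * Real.exp (-(β * N))) := sum_le_sum hE
    _ = ((X : ℝ) + 1) * (F.card * (2 * Real.exp (-(β * N)))) := by
        rw [sum_const, card_range, nsmul_eq_mul]; push_cast; ring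
    _ ≤ (2 * Real.exp (β / 2 * N)) * (F.card * (2 * Real.exp (-(β * N)))) := by
        apply mul_le_mul_of_nonneg_right _ (by positivity)
        have : 1 ≤ Real.exp (β / 2 * N) := Real.one_le_exp (by positivity)
        linarith
    _ = F.card * (4 * (Real.exp (β / 2 * N) * Real.exp (-(β * N)))) := by ring
    _ ≤ F.card * Real.exp (-(β / 4 * N)) := by
        apply mul_le_mul_of_nonneg_left _ (Nat.cast_nonneg _)
        rw [← Real.exp_add]
        calc 4 * Real.exp (β / 2 * N + -(β * N)) ≤ Real.exp (β / 4 * N) * Real.exp (β / 2 * N + -(β * N)) :=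
              mul_le_mul_of_nonneg_right hN3 (Real.exp_pos _).le
          _ = Real.exp (-(β / 4 * N)) := by rw [← Real.exp_add]; congr 1; ring

open Classical in
theorem small (B : ℕ) (hB : 2 ≤ B) (C : ℝ) (hC : 0 ≤ C) :
    ∃ κ₀ b : ℝ, 0 < κ₀ ∧ 0 < b ∧ ∀ κ : ℝ, 0 < κ → κ ≤ κ₀ → ∃ N₀ : ℕ, ∀ N : ℕ, N₀ ≤ N → ∀ (c g : ℤ), g ≠ 0 →
      |(c : ℝ)| ≤ Real.exp (C * N) → |(g : ℝ)| ≤ Real.exp (C * N) →
      ∀ A : Fin N → Finset ℕ, (∀ j, ∀ a ∈ A j, a < B) → (∀ j, 2 ≤ (A j).card) →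
      (((Fintype.piFinset A).filter fun t => ¬ ((∃ d, IsDiscOf d (num c g B t)) ∧ ∀ d, IsDiscOf d (num c g B t) →
          ((Fintype.piFinset A).card : ℝ) ^ κ ≤ |(d : ℝ)|)).card : ℝ) ≤
        (Fintype.piFinset A).card * Real.exp (-(b * N)) := by
  obtain ⟨β, hβ, hβ1, N₁, hN₁⟩ := not_square B hB C hC
  have hlB : 0 < Real.log B := Real.log_pos (by exact_mod_cast (by omega : 1 < B))
  refine ⟨β / (2 * Real.log B), β / 4, by positivity, by positivity, ?_⟩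
  intro κ hκ hκ0
  have hκβ : κ * Real.log B ≤ β / 2 := by
    rw [le_div_iff₀ (by positivity)] at hκ0
    linarith
  have e1 : ∀ᶠ N : ℕ in atTop, 6 ≤ Real.exp (β / 4 * N) := by
    have h1 : Tendsto (fun N : ℕ => β / 4 * (N : ℝ)) atTop atTop :=
      Tendsto.const_mul_atTop (by positivity) tendsto_natCast_atTop_atTop
    exact (Real.tendsto_exp_atTop.comp h1).eventually_ge_atTop 6
  obtain ⟨N₂, hN₂⟩ := eventually_atTop.1 e1
  refine ⟨N₁ + N₂ + 1, ?_⟩
  intro N hN c g hg hcN hgN A hA h2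
  have hN3 := hN₂ N (by omega)
  have hN1 : 1 ≤ N := by omega
  have hN1' : (1 : ℝ) ≤ N := by exact_mod_cast hN1
  have hN0 : (0 : ℝ) < N := by linarith
  set F := Fintype.piFinset A with hF
  have hFB : (F.card : ℝ) ≤ (B : ℝ) ^ N := card_family B N A hA
  have hF2 : (2 : ℝ) ^ N ≤ F.card := card_family' N A h2
  have hF1 : (1 : ℝ) ≤ F.card := (one_le_pow₀ (by norm_num)).trans hF2
  have hB0 : (0 : ℝ) < B := by exact_mod_cast (by omega : 0 < B)
  have hFκ : (F.card : ℝ) ^ κ ≤ Real.exp (β / 2 * N) := by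
    calc (F.card : ℝ) ^ κ ≤ ((B : ℝ) ^ N) ^ κ := Real.rpow_le_rpow (by linarith) hFB hκ.le
      _ = Real.exp (κ * Real.log B * N) := by
          rw [← Real.rpow_natCast, ← Real.rpow_mul hB0.le, Real.rpow_def_of_pos hB0]
          congr 1
          ring
      _ ≤ _ := Real.exp_le_exp.2 (mul_le_mul_of_nonneg_right hκβ hN0.le)
  set X : ℕ := ⌊(F.card : ℝ) ^ κ⌋₊ with hX
  have hF0 : 0 ≤ (F.card : ℝ) ^ κ := by positivity
  have hXle : (X : ℝ) ≤ (F.card : ℝ) ^ κ := Nat.floor_le hF0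
  have hX1 : 1 ≤ X := Nat.le_floor (by push_cast; exact Real.one_le_rpow hF1 hκ.le)
  let E : ℤ → Finset (Fin N → ℕ) := fun m => F.filter fun t => (m = 0 ∧ num c g B t = 0) ∨
    (m ≠ 0 ∧ num c g B t ≠ 0 ∧ IsSquare (num c g B t * m))
  have hE : ∀ m ∈ Icc (-(X : ℤ)) X, ((E m).card : ℝ) ≤ F.card * (2 * Real.exp (-(β * N))) := by
    intro m hm
    apply hN₁ N (by omega) c g hg hcN hgN A hA h2 m
    rw [mem_Icc, ← abs_le] at hm
    have h3 : |(m : ℝ)| ≤ X := by exact_mod_cast hm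
    refine h3.trans (hXle.trans (hFκ.trans (Real.exp_le_exp.2 ?_)))
    nlinarith
  have hsub : (F.filter fun t => ¬ ((∃ d, IsDiscOf d (num c g B t)) ∧ ∀ d, IsDiscOf d (num c g B t) →
      (F.card : ℝ) ^ κ ≤ |(d : ℝ)|)) ⊆ (Icc (-(X : ℤ)) X).biUnion E := by
    intro t ht
    rw [mem_filter] at ht
    obtain ⟨htF, ht2⟩ := ht
    rw [mem_biUnion]
    by_cases hn : num c g B t = 0
    · refine ⟨0, by rw [mem_Icc]; omega, ?_⟩
      exact mem_filter.2 ⟨htF, Or.inl ⟨rfl, hn⟩⟩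
    by_cases hs : IsSquare (num c g B t)
    · refine ⟨1, by rw [mem_Icc]; omega, ?_⟩
      exact mem_filter.2 ⟨htF, Or.inr ⟨one_ne_zero, hn, by rwa [mul_one]⟩⟩
    obtain ⟨d₁, hd₁, hsq₁⟩ := exists_disc _ hs
    have hex : ¬ ∀ d, IsDiscOf d (num c g B t) → (F.card : ℝ) ^ κ ≤ |(d : ℝ)| := fun h => ht2 ⟨⟨d₁, hd₁, hn, hsq₁⟩, h⟩
    push Not at hex
    obtain ⟨d, ⟨hd, _, hsq⟩, h3⟩ := hex
    refine ⟨d, ?_, mem_filter.2 ⟨htF, Or.inr ⟨disc_ne hd, hn, hsq⟩⟩⟩
    rw [mem_Icc, ← abs_le]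
    have h4 : ((d.natAbs : ℕ) : ℝ) ≤ (F.card : ℝ) ^ κ := by rw [Nat.cast_natAbs, Int.cast_abs]; exact h3.le
    have h5 := Nat.le_floor h4
    rw [← hX] at h5
    rw [Int.abs_eq_natAbs]
    exact_mod_cast h5
  calc ((F.filter fun t => ¬ ((∃ d, IsDiscOf d (num c g B t)) ∧ ∀ d, IsDiscOf d (num c g B t) →
      (F.card : ℝ) ^ κ ≤ |(d : ℝ)|)).card : ℝ)
      ≤ (((Icc (-(X : ℤ)) X).biUnion E).card : ℝ) := by exact_mod_cast card_le_card hsub
    _ ≤ ((∑ m ∈ Icc (-(X : ℤ)) X, (E m).card : ℕ) : ℝ) := by exact_mod_cast card_biUnion_le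
    _ = ∑ m ∈ Icc (-(X : ℤ)) X, ((E m).card : ℝ) := by push_cast; rfl
    _ ≤ ∑ _m ∈ Icc (-(X : ℤ)) X, (F.card : ℝ) * (2 * Real.exp (-(β * N))) := sum_le_sum hE
    _ = (2 * (X : ℝ) + 1) * (F.card * (2 * Real.exp (-(β * N)))) := by
        rw [sum_const, Int.card_Icc, nsmul_eq_mul]
        have : ((X : ℤ) + 1 - -(X : ℤ)).toNat = 2 * X + 1 := by omega
        rw [this]; push_cast; ring
    _ ≤ (3 * Real.exp (β / 2 * N)) * (F.card * (2 * Real.exp (-(β * N)))) := by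
        apply mul_le_mul_of_nonneg_right _ (by positivity)
        have : 1 ≤ Real.exp (β / 2 * N) := Real.one_le_exp (by positivity)
        linarith
    _ = F.card * (6 * (Real.exp (β / 2 * N) * Real.exp (-(β * N)))) := by ring
    _ ≤ F.card * Real.exp (-(β / 4 * N)) := by
        apply mul_le_mul_of_nonneg_left _ (Nat.cast_nonneg _)
        rw [← Real.exp_add]
        calc 6 * Real.exp (β / 2 * N + -(β * N)) ≤ Real.exp (β / 4 * N) * Real.exp (β / 2 * N + -(β * N)) :=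
              mul_le_mul_of_nonneg_right hN3 (Real.exp_pos _).le
          _ = Real.exp (-(β / 4 * N)) := by rw [← Real.exp_add]; congr 1; ring

end Pool.Agent.D0H92.QC
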