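import Pool.Agent.D0H92.QC.Dev

set_option autoImplicit false

/-!
# Power saving for one set of primes
-/

namespace Pool.Agent.D0H92.QC

open Finset Filter Pool.Agent.D0H92.AG Pool.Agent.D0H92.RG

/-- the number of prime divisors in a set -/
lemma card_dvd (F : Finset ℕ) (hF : ∀ p ∈ F, p.Prime) (m : ℤ) (hm : m ≠ 0) (h : ∀ p ∈ F, (p : ℤ) ∣ m) :
    (F.card : ℝ) ≤ 2 * Real.log |(m : ℝ)| := by
  have h1 : ∏ p ∈ F, p ∣ m.natAbs := by
    apply Finset.prod_primes_dvd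
    · intro p hp; exact (hF p hp).prime
    · intro p hp; exact Int.natCast_dvd.1 (h p hp)
  have h2 : 2 ^ F.card ≤ m.natAbs := by
    refine le_trans ?_ (Nat.le_of_dvd (Int.natAbs_pos.2 hm) h1)
    rw [← prod_const]
    exact prod_le_prod' fun p hp => (hF p hp).two_le
  have h3 : (2 : ℝ) ^ F.card ≤ |(m : ℝ)| := by
    have : ((2 ^ F.card : ℕ) : ℝ) ≤ (m.natAbs : ℝ) := by exact_mod_cast h2
    rw [Nat.cast_natAbs, Int.cast_abs] at this
    push_cast at this
    exact this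
  have h4 := Real.log_le_log (by positivity) h3
  rw [Real.log_pow] at h4
  have h5 : (0.5 : ℝ) ≤ Real.log 2 := by linarith [Real.log_two_gt_d9]
  have h6 : (0 : ℝ) ≤ F.card := Nat.cast_nonneg _
  nlinarith

lemma choose_k {B K N y : ℕ} (hB : 2 ≤ B) (hK : 1 ≤ K) (hN : 4 * K ≤ N) (hy : 2 ≤ y)
    (hyN : Real.log y * (8 * K) ≤ N) : ∃ k : ℕ, 1 ≤ k ∧ k ≤ N ∧ K * (Nat.log B (y ^ (2 * k)) + 1) ≤ N ∧
      (N : ℝ) / (8 * K) ≤ k * Real.log y := by
  have hK1 : (1 : ℝ) ≤ K := by exact_mod_cast hK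
  have hB2 : (2 : ℝ) ≤ B := by exact_mod_cast hB
  have hy2 : (2 : ℝ) ≤ y := by exact_mod_cast hy
  have hl2 : (0.69 : ℝ) < Real.log 2 := by linarith [Real.log_two_gt_d9]
  have hly : Real.log 2 ≤ Real.log y := Real.log_le_log (by norm_num) hy2
  have hly0 : 0 < Real.log y := by linarith
  have hN4 : (4 * K : ℝ) ≤ N := by exact_mod_cast hN
  set u : ℝ := N / (4 * K * Real.log y) with hu
  have hu0 : 0 < 4 * K * Real.log y := by positivity
  have hu2 : 2 ≤ u := by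
    rw [hu, le_div_iff₀ hu0]
    linarith
  have hk1 : (⌊u⌋₊ : ℝ) ≤ u := Nat.floor_le (by linarith)
  have hk2 : u < ⌊u⌋₊ + 1 := Nat.lt_floor_add_one u
  have huN : u * (4 * K * Real.log y) = N := by rw [hu]; field_simp
  refine ⟨⌊u⌋₊, ?_, ?_, ?_, ?_⟩
  · exact Nat.le_floor (by push_cast; linarith)
  · have h1 : (⌊u⌋₊ : ℝ) ≤ N := by
      refine hk1.trans ?_
      rw [hu, div_le_iff₀ hu0]
      have : (1 : ℝ) ≤ 4 * K * Real.log y := by nlinarith
      nlinarith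
    exact_mod_cast h1
  · have h1 : ((Nat.log B (y ^ (2 * ⌊u⌋₊)) : ℕ) : ℝ) * Real.log B ≤ 2 * ⌊u⌋₊ * Real.log y := by
      have h2 : ((B : ℝ) ^ (Nat.log B (y ^ (2 * ⌊u⌋₊)))) ≤ (y : ℝ) ^ (2 * ⌊u⌋₊) := by
        exact_mod_cast Nat.pow_log_le_self B (pow_ne_zero _ (by omega))
      have h4 := Real.log_le_log (by positivity) h2
      rw [Real.log_pow, Real.log_pow] at h4
      push_cast at h4
      exact h4
    have h5 : Real.log 2 ≤ Real.log B := Real.log_le_log (by norm_num) hB2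
    have h6 : (0 : ℝ) ≤ ((Nat.log B (y ^ (2 * ⌊u⌋₊)) : ℕ) : ℝ) := Nat.cast_nonneg _
    have h7 : 2 * (⌊u⌋₊ : ℝ) * Real.log y * (2 * K) ≤ N := by
      calc 2 * (⌊u⌋₊ : ℝ) * Real.log y * (2 * K) ≤ 2 * u * Real.log y * (2 * K) := by
            apply mul_le_mul_of_nonneg_right _ (by positivity)
            apply mul_le_mul_of_nonneg_right _ hly0.le
            linarith
        _ = N := by rw [← huN]; ring
    have h8 : ((Nat.log B (y ^ (2 * ⌊u⌋₊)) : ℕ) : ℝ) * 0.69 * (2 * K) ≤ N := by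
      refine le_trans ?_ h7
      apply mul_le_mul_of_nonneg_right _ (by positivity)
      refine le_trans ?_ h1
      exact mul_le_mul_of_nonneg_left (by linarith) h6
    have h9 : (K : ℝ) * (((Nat.log B (y ^ (2 * ⌊u⌋₊)) : ℕ) : ℝ) + 1) ≤ N := by nlinarith
    exact_mod_cast h9
  · rw [div_le_iff₀ (by positivity)]
    have h1 : u ≤ 2 * ⌊u⌋₊ := by
      have : (1 : ℝ) ≤ ⌊u⌋₊ := by
        have h2 : 1 ≤ ⌊u⌋₊ := Nat.le_floor (by push_cast; linarith)
        exact_mod_cast h2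
      linarith
    calc (N : ℝ) = u * (4 * K * Real.log y) := huN.symm
      _ ≤ 2 * ⌊u⌋₊ * (4 * K * Real.log y) := mul_le_mul_of_nonneg_right h1 hu0.le
      _ = ⌊u⌋₊ * Real.log y * (8 * K) := by ring

/-- the primes of `Q` which are larger than `100` and do not divide `m` -/
def good (m : ℕ) (Q : Finset ℕ) : Finset ℕ := Q.filter fun p => 100 < p ∧ ¬ p ∣ m

/-- **Power saving for one set of primes.** -/
theorem core (B : ℕ) (hB : 2 ≤ B) (C δ ρ : ℝ) (hC : 0 ≤ C) (hδ : 0 < δ) (hρ : 0 < ρ) (hρ1 : ρ ≤ 1) :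
    ∃ α β : ℝ, 0 < α ∧ α ≤ 1 / 16 ∧ α ≤ δ / (4 * (1 + δ)) ∧ 0 < β ∧ β ≤ 1 ∧ ∃ N₀ : ℕ, ∀ N : ℕ, N₀ ≤ N → ∀ (c : ℤ) (g : ℕ), 1 ≤ g →
      Real.log g ≤ C * N → ∀ A : Fin N → Finset ℕ, (∀ j, ∀ a ∈ A j, a < B) → (∀ j, 2 ≤ (A j).card) →
      ∀ (Q : Finset ℕ) (y : ℕ), (∀ p ∈ Q, p.Prime) → (∀ p ∈ Q, p ≤ y) → Real.log y ≤ β * N →
      (N : ℝ) ^ (1 + δ) ≤ Q.card → (y : ℝ) ^ ρ ≤ Q.card → ∀ ε : ℕ → ℤ, (∀ p, ε p = 1 ∨ ε p = -1) →
      (((Fintype.piFinset A).filter fun d => (Q.card : ℝ) ^ (1 - α) / 4 ≤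
          |((∑ p ∈ good (g * B.factorial) Q, ε p * chi p (val c g B d) : ℤ) : ℝ)|).card : ℝ) ≤
        (Fintype.piFinset A).card * (2 * Real.exp (-(β * N))) := by
  classical
  obtain ⟨K, hK, hdev⟩ := digit_dev B hB
  have hK1 : (1 : ℝ) ≤ K := by exact_mod_cast hK
  obtain ⟨a, haδ, ha8, ha0⟩ : ∃ a : ℝ, a ≤ δ / (2 * (1 + δ)) ∧ a ≤ 1 / 8 ∧ 0 < a :=
    ⟨min (δ / (2 * (1 + δ))) (1 / 8), min_le_left _ _, min_le_right _ _, lt_min (by positivity) (by norm_num)⟩
  set β : ℝ := a * ρ / (16 * K) with hβ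
  have hβ0 : 0 < β := by positivity
  have hβK : β * (8 * K) ≤ 1 := by
    rw [hβ, div_mul_eq_mul_div, div_le_one (by positivity)]
    nlinarith [mul_le_mul ha8 hρ1 hρ.le (by norm_num)]
  have hβ1 : β ≤ 1 := by nlinarith
  obtain ⟨M1, hM1⟩ : ∃ M1 : ℝ, M1 = 4 + 2 * (101 + 2 * (C + Real.log B.factorial)) := ⟨_, rfl⟩
  have hBf : 0 ≤ Real.log B.factorial := Real.log_nonneg (by exact_mod_cast Nat.factorial_pos B)
  have ht1 : Tendsto (fun N : ℕ => (N : ℝ) ^ δ) atTop atTop := (tendsto_rpow_atTop hδ).comp tendsto_natCast_atTop_atTop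
  have ht2 : Tendsto (fun N : ℕ => (N : ℝ) ^ (a / 4)) atTop atTop :=
    (tendsto_rpow_atTop (by positivity)).comp tendsto_natCast_atTop_atTop
  obtain ⟨N₀, hN₀⟩ := eventually_atTop.1 (((ht1.eventually_ge_atTop M1).and (ht2.eventually_ge_atTop 416)).and
    (eventually_ge_atTop (4 * K)))
  refine ⟨a / 2, β, by positivity, by linarith, ?_, hβ0, hβ1, N₀, ?_⟩
  · rw [le_div_iff₀ (by positivity)] at haδ ⊢
    linarith
  intro N hN c g hg hgN A hA h2 Q y hQ hQy hy hQ1 hQ2 ε hε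
  obtain ⟨⟨hN1, hN2⟩, hN3⟩ := hN₀ N hN
  have hN4 : (4 : ℝ) ≤ N := by
    have : 4 ≤ N := by omega
    exact_mod_cast this
  have hN0 : (0 : ℝ) < N := by linarith
  set s : ℝ := (Q.card : ℝ) with hs
  have hsN : N * M1 ≤ s := by
    calc (N : ℝ) * M1 ≤ N * N ^ δ := mul_le_mul_of_nonneg_left hN1 hN0.le
      _ = (N : ℝ) ^ (1 + δ) := by rw [Real.rpow_add hN0, Real.rpow_one]
      _ ≤ s := hQ1
  have hM4 : 4 ≤ M1 := by rw [hM1]; linarith
  have hs1 : 1 ≤ s := by nlinarith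
  have hs0 : 0 < s := by linarith
  have hsN1 : (N : ℝ) ≤ s := by nlinarith
  -- the good primes
  set Q' := good (g * B.factorial) Q with hQ'
  have hQ'sub : Q' ⊆ Q := filter_subset _ _
  have hs' : s / 2 ≤ (Q'.card : ℝ) := by
    have h3 : Q.card = Q'.card + (Q.filter fun p => ¬ (100 < p ∧ ¬ p ∣ g * B.factorial)).card := by
      rw [hQ']; exact (card_filter_add_card_filter_not _).symm
    have h4 : Q.filter (fun p => ¬ (100 < p ∧ ¬ p ∣ g * B.factorial)) ⊆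
        range 101 ∪ Q.filter (fun p => p ∣ g * B.factorial) := by
      intro p hp
      rw [mem_filter] at hp
      rw [mem_union, mem_range, mem_filter]
      by_cases h5 : 100 < p
      · right
        refine ⟨hp.1, ?_⟩
        by_contra h6
        exact hp.2 ⟨h5, h6⟩
      · left; omega
    have h5 := (card_le_card h4).trans (card_union_le _ _)
    rw [card_range] at h5
    have hm0 : g * B.factorial ≠ 0 := (Nat.mul_pos hg (Nat.factorial_pos _)).ne'
    have h6 := card_dvd (Q.filter (fun p => p ∣ g * B.factorial)) (fun p hp => hQ p (mem_filter.1 hp).1)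
      ((g * B.factorial : ℕ) : ℤ) (by exact_mod_cast hm0) (fun p hp => Int.natCast_dvd_natCast.2 (mem_filter.1 hp).2)
    have h7 : Real.log |(((g * B.factorial : ℕ) : ℤ) : ℝ)| = Real.log g + Real.log B.factorial := by
      have hg0 : (g : ℝ) ≠ 0 := by exact_mod_cast (by omega : g ≠ 0)
      have hf0 : ((B.factorial : ℕ) : ℝ) ≠ 0 := by exact_mod_cast (Nat.factorial_pos B).ne'
      rw [Int.cast_natCast, Nat.abs_cast, Nat.cast_mul, Real.log_mul hg0 hf0]
    rw [h7] at h6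
    have h8 : (Q.card : ℝ) = Q'.card + ((Q.filter fun p => ¬ (100 < p ∧ ¬ p ∣ g * B.factorial)).card : ℝ) := by
      exact_mod_cast h3
    have h9 : ((Q.filter fun p => ¬ (100 < p ∧ ¬ p ∣ g * B.factorial)).card : ℝ) ≤
        101 + ((Q.filter (fun p => p ∣ g * B.factorial)).card : ℝ) := by exact_mod_cast h5
    have h10 : 2 * (101 + 2 * (C * N + Real.log B.factorial)) ≤ s := by
      refine le_trans ?_ hsN
      rw [hM1]
      nlinarith
    rw [← hs] at h8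
    nlinarith
  have hs's : (Q'.card : ℝ) ≤ s := by rw [hs]; exact_mod_cast card_le_card hQ'sub
  -- the size of y
  have hy2 : 2 ≤ y := by
    have h3 : 0 < Q.card := by
      have : (0 : ℝ) < Q.card := hs0
      exact_mod_cast this
    obtain ⟨p, hp⟩ := card_pos.1 h3
    exact (hQ p hp).two_le.trans (hQy p hp)
  have hyN : Real.log y * (8 * K) ≤ N := by
    calc Real.log y * (8 * K) ≤ β * N * (8 * K) := mul_le_mul_of_nonneg_right hy (by positivity)
      _ = (β * (8 * K)) * N := by ring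
      _ ≤ 1 * N := mul_le_mul_of_nonneg_right hβK hN0.le
      _ = N := one_mul _
  obtain ⟨k, hk1, hkN, hkL, hky⟩ := choose_k hB hK hN3 hy2 hyN
  have hkN' : (k : ℝ) ≤ N := by exact_mod_cast hkN
  have hk1' : (1 : ℝ) ≤ k := by exact_mod_cast hk1
  have h2k : 2 * k ≤ Q'.card := by
    have : (2 * k : ℝ) ≤ Q'.card := by nlinarith
    exact_mod_cast this
  set T : ℝ := 6 * (Q'.card : ℝ) ^ (7 / 8 : ℝ) + √(2 * k * (Q'.card : ℝ)) with hT
  have hQ'0 : (0 : ℝ) < Q'.card := by linarith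
  have hsq0 : 0 ≤ √(2 * k * (Q'.card : ℝ)) := Real.sqrt_nonneg _
  have hr0 : 0 < (Q'.card : ℝ) ^ (7 / 8 : ℝ) := Real.rpow_pos_of_pos hQ'0 _
  have hT0 : 0 < T := by rw [hT]; positivity
  have hTsq : 2 * k * (Q'.card : ℝ) ≤ T ^ 2 := by
    have h3 : √(2 * k * (Q'.card : ℝ)) ^ 2 = 2 * k * (Q'.card : ℝ) := Real.sq_sqrt (by positivity)
    rw [← h3]
    exact pow_le_pow_left₀ hsq0 (by rw [hT]; linarith) 2
  have hTμ : 6 * (Q'.card : ℝ) ^ (7 / 8 : ℝ) ≤ T := by rw [hT]; linarith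
  set τ : ℝ := s ^ (1 - a / 2) / 4 with hτ
  have hτ0 : 0 < τ := by rw [hτ]; positivity
  have h3 := hdev c g hg N A hA h2 Q' y (fun p hp => hQ p (hQ'sub hp)) (fun p hp => (mem_filter.1 hp).2.1)
    (fun p hp => (mem_filter.1 hp).2.2) (fun p hp => hQy p (hQ'sub hp)) ε hε k hk1 hkL h2k T τ hT0 hTsq hTμ hτ0
  refine h3.trans (mul_le_mul_of_nonneg_left ?_ (Nat.cast_nonneg _))
  apply mul_le_mul_of_nonneg_left _ (by norm_num : (0 : ℝ) ≤ 2)
  -- numbers
  have hT8 : T ≤ 8 * s ^ (1 - a) := by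
    have h4 : (Q'.card : ℝ) ^ (7 / 8 : ℝ) ≤ s ^ (1 - a) :=
      (Real.rpow_le_rpow hQ'0.le hs's (by norm_num)).trans (Real.rpow_le_rpow_of_exponent_le hs1 (by linarith))
    have h5 : (N : ℝ) ≤ s ^ (1 / (1 + δ)) := by
      have h6 := Real.rpow_le_rpow (by positivity) hQ1 (show 0 ≤ 1 / (1 + δ) by positivity)
      rw [← Real.rpow_mul hN0.le] at h6
      have h7 : (1 + δ) * (1 / (1 + δ)) = 1 := by field_simp
      rwa [h7, Real.rpow_one] at h6
    have h6 : √(2 * k * (Q'.card : ℝ)) ≤ 2 * s ^ (1 - a) := by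
      rw [Real.sqrt_le_left (by positivity)]
      have h7 : s ^ (1 / (1 + δ)) * s ≤ (s ^ (1 - a)) ^ 2 := by
        rw [← Real.rpow_natCast, ← Real.rpow_mul hs0.le]
        nth_rewrite 2 [← Real.rpow_one s]
        rw [← Real.rpow_add hs0]
        apply Real.rpow_le_rpow_of_exponent_le hs1
        rw [le_div_iff₀ (by positivity)] at haδ
        have h8 : 1 / (1 + δ) = 1 - δ / (1 + δ) := by field_simp; ring
        have h9 : 2 * a ≤ δ / (1 + δ) := by rw [le_div_iff₀ (by positivity)]; linarith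
        push_cast
        rw [h8]
        linarith
      have h8 : 2 * k * (Q'.card : ℝ) ≤ 2 * (s ^ (1 / (1 + δ)) * s) := by
        have h9 : (k : ℝ) * (Q'.card : ℝ) ≤ s ^ (1 / (1 + δ)) * s :=
          mul_le_mul (hkN'.trans h5) hs's hQ'0.le (by positivity)
        linarith
      nlinarith [sq_nonneg (s ^ (1 - a))]
    rw [hT]
    linarith
  have hq : 13 * T / τ ≤ s ^ (-(a / 4)) := by
    have h4 : 416 ≤ s ^ (a / 4) := hN2.trans (Real.rpow_le_rpow hN0.le hsN1 (by positivity))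
    rw [div_le_iff₀ hτ0, hτ]
    have h5 : s ^ (-(a / 4)) * (s ^ (1 - a / 2) / 4) = s ^ (a / 4) * s ^ (1 - a) / 4 := by
      rw [← mul_div_assoc, ← Real.rpow_add hs0, ← Real.rpow_add hs0]
      congr 2
      ring
    rw [h5]
    have h6 : 0 < s ^ (1 - a) := by positivity
    nlinarith
  have hq0 : 0 ≤ 13 * T / τ := by positivity
  calc (13 * T / τ) ^ (2 * k) ≤ (s ^ (-(a / 4))) ^ (2 * k) := pow_le_pow_left₀ hq0 hq _
    _ = Real.exp (-(a / 2 * k * Real.log s)) := by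
        rw [← Real.rpow_natCast, ← Real.rpow_mul hs0.le, Real.rpow_def_of_pos hs0]
        congr 1
        push_cast
        ring
    _ ≤ Real.exp (-(β * N)) := by
        apply Real.exp_le_exp.2
        apply neg_le_neg
        have hy0 : (0 : ℝ) < y := by exact_mod_cast (by omega : 0 < y)
        have h4 : ρ * Real.log y ≤ Real.log s := by
          have := Real.log_le_log (by positivity) hQ2
          rwa [Real.log_rpow hy0] at this
        calc β * N = a / 2 * ρ * (N / (8 * K)) := by rw [hβ]; field_simp; ring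
          _ ≤ a / 2 * ρ * (k * Real.log y) := mul_le_mul_of_nonneg_left hky (by positivity)
          _ = a / 2 * k * (ρ * Real.log y) := by ring
          _ ≤ a / 2 * k * Real.log s := mul_le_mul_of_nonneg_left h4 (by positivity)

end Pool.Agent.D0H92.QC
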