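import Mathlib

set_option autoImplicit false

/-!
# Moments of sums of signs whose products have small mean values
-/

namespace Pool.Agent.D0H92.QC

open Finset

section
variable {ι : Type} [Fintype ι] [DecidableEq ι]

/-- the sign of a Boolean value -/
def sg (b : Bool) : ℝ := if b then 1 else -1

lemma sg_pm (b : Bool) : sg b = 1 ∨ sg b = -1 := by
  cases b
  · right; simp [sg]
  · left; simp [sg]

/-- the product measure with the mean values `μ` -/
noncomputable def wt (μ : ι → ℝ) (ω : ι → Bool) : ℝ := ∏ i, (1 + sg (ω i) * μ i) / 2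

/-- the values which are taken an odd number of times -/
def oddSet {n : ℕ} (f : Fin n → ι) : Finset ι := univ.filter (fun i => Odd (univ.filter (fun j => f j = i)).card)

lemma oddSet_card {n : ℕ} (f : Fin n → ι) : (oddSet f).card ≤ n := by
  have h1 : oddSet f ⊆ univ.image f := by
    intro i hi
    unfold oddSet at hi
    rw [mem_filter] at hi
    have h2 : 0 < (univ.filter (fun j => f j = i)).card := by
      rcases Nat.eq_zero_or_pos (univ.filter (fun j => f j = i)).card with h | h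
      · rw [h] at hi
        exact absurd hi.2 (by decide)
      · exact h
    obtain ⟨j, hj⟩ := card_pos.1 h2
    rw [mem_image]
    exact ⟨j, mem_univ _, (mem_filter.1 hj).2⟩
  refine (card_le_card h1).trans (card_image_le.trans ?_)
  simp

lemma prod_pm {n : ℕ} (x : ι → ℝ) (hx : ∀ i, x i = 1 ∨ x i = -1) (f : Fin n → ι) :
    ∏ j, x (f j) = ∏ i ∈ oddSet f, x i := by
  rw [← prod_fiberwise univ f (fun j => x (f j))]
  unfold oddSet
  rw [prod_filter]
  refine prod_congr rfl fun i _ => ?_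
  have h1 : ∏ j ∈ univ.filter (fun j => f j = i), x (f j) = x i ^ (univ.filter (fun j => f j = i)).card := by
    rw [← prod_const]
    refine prod_congr rfl fun j hj => ?_
    rw [(mem_filter.1 hj).2]
  rw [h1]
  split_ifs with h
  · rcases hx i with h2 | h2
    · rw [h2, one_pow]
    · rw [h2, h.neg_one_pow]
  · rw [Nat.not_odd_iff_even] at h
    rcases hx i with h2 | h2
    · rw [h2, one_pow]
    · rw [h2, h.neg_one_pow]

lemma sum_bool (μ : ι → ℝ) (F : ι → Bool → ℝ) :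
    ∑ ω : ι → Bool, wt μ ω * ∏ i, F i (ω i) = ∏ i, ((1 + μ i) / 2 * F i true + (1 - μ i) / 2 * F i false) := by
  have h1 : ∀ i, ((1 + μ i) / 2 * F i true + (1 - μ i) / 2 * F i false) =
      ∑ b ∈ (univ : Finset Bool), (1 + sg b * μ i) / 2 * F i b := by
    intro i
    rw [Fintype.sum_bool]
    unfold sg
    simp only [if_true, Bool.false_eq_true, if_false]
    ring
  rw [prod_congr rfl fun i _ => h1 i, Finset.prod_univ_sum, Fintype.piFinset_univ]
  refine sum_congr rfl fun ω _ => ?_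
  unfold wt
  rw [prod_mul_distrib]

lemma exp_prod (μ : ι → ℝ) (O : Finset ι) : ∑ ω : ι → Bool, wt μ ω * ∏ i ∈ O, sg (ω i) = ∏ i ∈ O, μ i := by
  have h1 : ∀ ω : ι → Bool, ∏ i ∈ O, sg (ω i) = ∏ i, (fun i b => if i ∈ O then sg b else 1) i (ω i) := by
    intro ω
    rw [prod_ite_mem, univ_inter]
  rw [sum_congr rfl fun ω _ => by rw [h1 ω], sum_bool μ (fun i b => if i ∈ O then sg b else 1), ← prod_subset (subset_univ O)]
  · refine prod_congr rfl fun i hi => ?_
    simp only [if_pos hi]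
    simp [sg]
    ring
  · intro i _ hi
    simp only [if_neg hi]
    ring

/-- **Comparison of moments.** -/
theorem moment {δ : Type} (D : Finset δ) (X : δ → ι → ℝ) (hX : ∀ d i, X d i = 1 ∨ X d i = -1) (μ : ι → ℝ) (n : ℕ)
    (h : ∀ O : Finset ι, O.card ≤ n → ∑ d ∈ D, ∏ i ∈ O, X d i ≤ D.card * ∏ i ∈ O, μ i) :
    ∑ d ∈ D, (∑ i, X d i) ^ n ≤ D.card * ∑ ω : ι → Bool, wt μ ω * (∑ i, sg (ω i)) ^ n := by
  calc ∑ d ∈ D, (∑ i, X d i) ^ n
      = ∑ f : Fin n → ι, ∑ d ∈ D, ∏ i ∈ oddSet f, X d i := by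
        rw [sum_comm]
        refine sum_congr rfl fun d _ => ?_
        rw [Fintype.sum_pow]
        exact sum_congr rfl fun f _ => prod_pm (X d) (hX d) f
    _ ≤ ∑ f : Fin n → ι, D.card * ∏ i ∈ oddSet f, μ i := sum_le_sum fun f _ => h _ (oddSet_card f)
    _ = D.card * ∑ f : Fin n → ι, ∑ ω : ι → Bool, wt μ ω * ∏ i ∈ oddSet f, sg (ω i) := by
        rw [mul_sum]
        refine sum_congr rfl fun f _ => ?_
        rw [exp_prod]
    _ = D.card * ∑ ω : ι → Bool, wt μ ω * (∑ i, sg (ω i)) ^ n := by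
        rw [sum_comm]
        congr 1
        refine sum_congr rfl fun ω _ => ?_
        rw [Fintype.sum_pow, mul_sum]
        refine sum_congr rfl fun f _ => ?_
        rw [prod_pm (fun i => sg (ω i)) (fun i => sg_pm _) f]

lemma wt_nonneg {μ : ι → ℝ} (h0 : ∀ i, 0 ≤ μ i) (h1 : ∀ i, μ i ≤ 1) (ω : ι → Bool) : 0 ≤ wt μ ω := by
  refine prod_nonneg fun i _ => ?_
  rcases sg_pm (ω i) with h | h <;> rw [h] <;> linarith [h0 i, h1 i]

lemma pow_le_two_exp (z : ℝ) (k : ℕ) : z ^ (2 * k) ≤ (2 * k).factorial * (Real.exp z + Real.exp (-z)) := by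
  have h1 : |z| ^ (2 * k) / (2 * k).factorial ≤ Real.exp |z| := Real.pow_div_factorial_le_exp _ (abs_nonneg z) _
  have h2 : Real.exp |z| ≤ Real.exp z + Real.exp (-z) := by
    rcases abs_cases z with h | h
    · rw [h.1]; linarith [Real.exp_pos (-z)]
    · rw [h.1]; linarith [Real.exp_pos z]
  have h3 : (0 : ℝ) < (2 * k).factorial := by exact_mod_cast Nat.factorial_pos _
  rw [div_le_iff₀ h3] at h1
  have h4 : |z| ^ (2 * k) = z ^ (2 * k) := by rw [pow_mul, pow_mul, sq_abs]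
  rw [← h4]
  nlinarith

lemma factor_le {t m : ℝ} (ht : 0 ≤ t) (ht1 : t ≤ 1) (hm : 0 ≤ m) :
    (1 + m) / 2 * Real.exp t + (1 - m) / 2 * Real.exp (-t) ≤ Real.exp (t ^ 2 / 2 + 2 * t * m) ∧
      (1 + m) / 2 * Real.exp (-t) + (1 - m) / 2 * Real.exp t ≤ Real.exp (t ^ 2 / 2 + 2 * t * m) := by
  have h1 := Real.cosh_le_exp_half_sq t
  have h2 : Real.cosh t = (Real.exp t + Real.exp (-t)) / 2 := Real.cosh_eq t
  have h3 : Real.exp t ≤ 1 + t + t ^ 2 := by
    have := Real.abs_exp_sub_one_sub_id_le (x := t) (by rw [abs_of_nonneg ht]; exact ht1)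
    have := (abs_le.1 this).2
    linarith
  have h4 : 1 - t ≤ Real.exp (-t) := by linarith [Real.add_one_le_exp (-t)]
  have h5 : Real.exp (-t) ≤ Real.exp t := Real.exp_le_exp.2 (by linarith)
  have h6 : Real.exp t - Real.exp (-t) ≤ 4 * t := by nlinarith
  have h7 : 1 ≤ Real.exp (t ^ 2 / 2) := Real.one_le_exp (by positivity)
  have h8 : 1 + 2 * t * m ≤ Real.exp (2 * t * m) := by linarith [Real.add_one_le_exp (2 * t * m)]
  have h9 : Real.exp (t ^ 2 / 2) + 2 * t * m ≤ Real.exp (t ^ 2 / 2 + 2 * t * m) := by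
    rw [Real.exp_add]
    have h10 : 0 ≤ 2 * t * m := by positivity
    nlinarith
  have h11 : 0 ≤ 2 * t * m := by positivity
  constructor
  · nlinarith
  · nlinarith

/-- the moments of the product measure -/
lemma model_moment {μ : ι → ℝ} (h0 : ∀ i, 0 ≤ μ i) (h1 : ∀ i, μ i ≤ 1) (k : ℕ) {t : ℝ} (ht : 0 < t) (ht1 : t ≤ 1) :
    ∑ ω : ι → Bool, wt μ ω * (∑ i, sg (ω i)) ^ (2 * k) ≤
      2 * (2 * k).factorial * (1 / t) ^ (2 * k) * Real.exp (Fintype.card ι * (t ^ 2 / 2) + 2 * t * ∑ i, μ i) := by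
  have hE : ∀ r : ℝ, ∑ ω : ι → Bool, wt μ ω * Real.exp (r * ∑ i, sg (ω i)) =
      ∏ i, ((1 + μ i) / 2 * Real.exp r + (1 - μ i) / 2 * Real.exp (-r)) := by
    intro r
    rw [← sum_congr rfl fun i _ => rfl]
    have h2 : ∀ ω : ι → Bool, Real.exp (r * ∑ i, sg (ω i)) = ∏ i, (fun _ b => Real.exp (r * sg b)) i (ω i) := by
      intro ω
      rw [mul_sum, Real.exp_sum]
    rw [sum_congr rfl fun ω _ => by rw [h2 ω], sum_bool μ (fun _ b => Real.exp (r * sg b))]
    refine prod_congr rfl fun i _ => ?_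
    simp [sg]
  have hbound : ∀ r : ℝ, (r = t ∨ r = -t) → ∑ ω : ι → Bool, wt μ ω * Real.exp (r * ∑ i, sg (ω i)) ≤
      Real.exp (Fintype.card ι * (t ^ 2 / 2) + 2 * t * ∑ i, μ i) := by
    intro r hr
    rw [hE]
    have h3 : Real.exp (Fintype.card ι * (t ^ 2 / 2) + 2 * t * ∑ i, μ i) = ∏ i : ι, Real.exp (t ^ 2 / 2 + 2 * t * μ i) := by
      rw [← Real.exp_sum, sum_add_distrib, ← mul_sum]
      simp
    rw [h3]
    refine prod_le_prod (fun i _ => ?_) fun i _ => ?_
    · have := Real.exp_pos r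
      have := Real.exp_pos (-r)
      have := h0 i
      have := h1 i
      exact add_nonneg (mul_nonneg (by linarith) (by positivity)) (mul_nonneg (by linarith) (by positivity))
    · have h4 := factor_le ht.le ht1 (h0 i)
      rcases hr with rfl | rfl
      · exact h4.1
      · rw [neg_neg]; exact h4.2
  have htk : (0 : ℝ) < t ^ (2 * k) := by positivity
  have hf : (0 : ℝ) ≤ (2 * k).factorial := Nat.cast_nonneg _
  calc ∑ ω : ι → Bool, wt μ ω * (∑ i, sg (ω i)) ^ (2 * k)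
      ≤ ∑ ω : ι → Bool, wt μ ω * ((1 / t) ^ (2 * k) * ((2 * k).factorial *
          (Real.exp (t * ∑ i, sg (ω i)) + Real.exp ((-t) * ∑ i, sg (ω i))))) := by
        refine sum_le_sum fun ω _ => mul_le_mul_of_nonneg_left ?_ (wt_nonneg h0 h1 ω)
        have h5 := pow_le_two_exp (t * ∑ i, sg (ω i)) k
        rw [mul_pow, ← neg_mul] at h5
        have h6 : (∑ i, sg (ω i)) ^ (2 * k) = (1 / t) ^ (2 * k) * (t ^ (2 * k) * (∑ i, sg (ω i)) ^ (2 * k)) := by
          rw [← mul_assoc, ← mul_pow, one_div, inv_mul_cancel₀ ht.ne', one_pow, one_mul]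
        rw [h6]
        exact mul_le_mul_of_nonneg_left h5 (by positivity)
    _ = (1 / t) ^ (2 * k) * (2 * k).factorial * (∑ ω : ι → Bool, wt μ ω * Real.exp (t * ∑ i, sg (ω i)) +
          ∑ ω : ι → Bool, wt μ ω * Real.exp ((-t) * ∑ i, sg (ω i))) := by
        rw [← sum_add_distrib, mul_sum]
        refine sum_congr rfl fun ω _ => ?_
        ring
    _ ≤ (1 / t) ^ (2 * k) * (2 * k).factorial * (Real.exp (Fintype.card ι * (t ^ 2 / 2) + 2 * t * ∑ i, μ i) +
          Real.exp (Fintype.card ι * (t ^ 2 / 2) + 2 * t * ∑ i, μ i)) := by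
        apply mul_le_mul_of_nonneg_left _ (by positivity)
        exact add_le_add (hbound t (Or.inl rfl)) (hbound (-t) (Or.inr rfl))
    _ = _ := by ring

/-- **Large deviations.** -/
theorem tail {δ : Type} (D : Finset δ) (X : δ → ι → ℝ) (hX : ∀ d i, X d i = 1 ∨ X d i = -1) {μ : ι → ℝ}
    (h0 : ∀ i, 0 ≤ μ i) (h1 : ∀ i, μ i ≤ 1) (k : ℕ) (hk : 1 ≤ k)
    (h : ∀ O : Finset ι, O.card ≤ 2 * k → ∑ d ∈ D, ∏ i ∈ O, X d i ≤ D.card * ∏ i ∈ O, μ i)
    (hks : 2 * k ≤ Fintype.card ι) {T τ : ℝ} (hT0 : 0 < T) (hT : 2 * k * (Fintype.card ι : ℝ) ≤ T ^ 2)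
    (hTμ : ∑ i, μ i ≤ T) (hτ : 0 < τ) :
    ((D.filter fun d => τ ≤ |∑ i, X d i|).card : ℝ) ≤ D.card * (2 * (13 * T / τ) ^ (2 * k)) := by
  have hk1 : (1 : ℝ) ≤ k := by exact_mod_cast hk
  have hks' : (2 * k : ℝ) ≤ Fintype.card ι := by exact_mod_cast hks
  have hT2 : 2 * k ≤ T := by
    by_contra hcon
    push Not at hcon
    nlinarith
  set t : ℝ := 2 * k / T with ht
  have ht0 : 0 < t := by positivity
  have ht1 : t ≤ 1 := by rw [ht, div_le_one hT0]; exact hT2
  have h2 := (moment D X hX μ (2 * k) h).trans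
    (mul_le_mul_of_nonneg_left (model_moment h0 h1 k ht0 ht1) (Nat.cast_nonneg _))
  have h3 : (Fintype.card ι : ℝ) * (t ^ 2 / 2) + 2 * t * ∑ i, μ i ≤ 5 * k := by
    have e1 : (Fintype.card ι : ℝ) * (t ^ 2 / 2) = (2 * k * (Fintype.card ι : ℝ)) * (k / T ^ 2) := by
      rw [ht]; field_simp
    have e2 : (2 * k * (Fintype.card ι : ℝ)) * (k / T ^ 2) ≤ T ^ 2 * (k / T ^ 2) :=
      mul_le_mul_of_nonneg_right hT (by positivity)
    have e3 : T ^ 2 * ((k : ℝ) / T ^ 2) = k := by field_simp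
    have e4 : 2 * t * ∑ i, μ i ≤ 2 * t * T := mul_le_mul_of_nonneg_left hTμ (by positivity)
    have e5 : 2 * t * T = 4 * k := by rw [ht]; field_simp; ring
    linarith
  have h4 : Real.exp ((Fintype.card ι : ℝ) * (t ^ 2 / 2) + 2 * t * ∑ i, μ i) ≤ (13 : ℝ) ^ (2 * k) := by
    have e1 : Real.exp (5 / 2) ≤ 13 := by
      have e2 : Real.exp 1 < 2.7182818286 := Real.exp_one_lt_d9
      have e3 : Real.exp (5 / 2) ^ 2 = Real.exp 1 ^ 5 := by
        rw [← Real.exp_nat_mul, ← Real.exp_nat_mul]; norm_num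
      have e4 : Real.exp 1 ^ 5 ≤ (2.7182818286 : ℝ) ^ 5 := pow_le_pow_left₀ (Real.exp_pos _).le e2.le 5
      have e5 : (2.7182818286 : ℝ) ^ 5 ≤ 13 ^ 2 := by norm_num
      nlinarith [Real.exp_pos (5 / 2)]
    calc Real.exp ((Fintype.card ι : ℝ) * (t ^ 2 / 2) + 2 * t * ∑ i, μ i) ≤ Real.exp (5 * k) := Real.exp_le_exp.2 h3
      _ = Real.exp (5 / 2) ^ (2 * k) := by
          rw [← Real.exp_nat_mul]; congr 1; push_cast; ring
      _ ≤ (13 : ℝ) ^ (2 * k) := pow_le_pow_left₀ (Real.exp_pos _).le e1 _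
  have h5 : ((2 * k).factorial : ℝ) * (1 / t) ^ (2 * k) ≤ T ^ (2 * k) := by
    have e1 : ((2 * k).factorial : ℝ) ≤ (2 * k : ℝ) ^ (2 * k) := by
      have := Nat.factorial_le_pow (2 * k)
      exact_mod_cast this
    calc ((2 * k).factorial : ℝ) * (1 / t) ^ (2 * k) ≤ (2 * k : ℝ) ^ (2 * k) * (1 / t) ^ (2 * k) :=
          mul_le_mul_of_nonneg_right e1 (by positivity)
      _ = T ^ (2 * k) := by
          rw [← mul_pow]
          congr 1
          rw [ht]
          field_simp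
  have h6 : ∑ d ∈ D, (∑ i, X d i) ^ (2 * k) ≤ D.card * (2 * (13 * T) ^ (2 * k)) := by
    refine h2.trans (mul_le_mul_of_nonneg_left ?_ (Nat.cast_nonneg _))
    calc 2 * ((2 * k).factorial : ℝ) * (1 / t) ^ (2 * k) *
          Real.exp ((Fintype.card ι : ℝ) * (t ^ 2 / 2) + 2 * t * ∑ i, μ i)
        = 2 * (((2 * k).factorial : ℝ) * (1 / t) ^ (2 * k)) *
          Real.exp ((Fintype.card ι : ℝ) * (t ^ 2 / 2) + 2 * t * ∑ i, μ i) := by ring
      _ ≤ 2 * T ^ (2 * k) * 13 ^ (2 * k) := by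
          apply mul_le_mul _ h4 (Real.exp_pos _).le (by positivity)
          exact mul_le_mul_of_nonneg_left h5 (by norm_num)
      _ = _ := by rw [mul_pow]; ring
  have h7 : ((D.filter fun d => τ ≤ |∑ i, X d i|).card : ℝ) * τ ^ (2 * k) ≤ ∑ d ∈ D, (∑ i, X d i) ^ (2 * k) := by
    rw [← nsmul_eq_mul, ← sum_const]
    refine (sum_le_sum fun d hd => ?_).trans (sum_le_sum_of_subset_of_nonneg (filter_subset _ _) fun d _ _ => ?_)
    · have h8 := (mem_filter.1 hd).2
      have h9 : (∑ i, X d i) ^ (2 * k) = |∑ i, X d i| ^ (2 * k) := by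
        rw [pow_mul, pow_mul, sq_abs]
      rw [h9]
      exact pow_le_pow_left₀ hτ.le h8 _
    · rw [pow_mul]; positivity
  have h8 := h7.trans h6
  have hτk : (0 : ℝ) < τ ^ (2 * k) := by positivity
  rw [← le_div_iff₀ hτk] at h8
  refine h8.trans (le_of_eq ?_)
  rw [div_pow]
  ring

end

end Pool.Agent.D0H92.QC
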