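import Pool.Agent.D0H92.QC.Prod
import Pool.Agent.D0H92.QC.Mom

set_option autoImplicit false

/-!
# Large deviations of sums of quadratic characters over sets of integers with missing digits
-/

namespace Pool.Agent.D0H92.QC

open Finset Pool.Agent.D0H92.AG Pool.Agent.D0H92.RG

lemma sum_mu (P : Finset ℕ) (hP : ∀ p ∈ P, 1 ≤ p) :
    ∑ p ∈ P, 3 * (p : ℝ) ^ (-(1 / 4) : ℝ) ≤ 6 * (P.card : ℝ) ^ (7 / 8 : ℝ) := by
  classical
  set s : ℝ := (P.card : ℝ) with hs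
  rcases P.eq_empty_or_nonempty with rfl | hne
  · simp only [sum_empty]
    positivity
  have hs1 : 1 ≤ s := by
    rw [hs]
    exact_mod_cast card_pos.2 hne
  have hs0 : 0 < s := by linarith
  have h1 : ∀ p ∈ P, (p : ℝ) ^ (-(1 / 4) : ℝ) ≤ s ^ (-(1 / 8) : ℝ) + (if (p : ℝ) ≤ √s then 1 else 0) := by
    intro p hp
    have hp1 : (1 : ℝ) ≤ p := by exact_mod_cast hP p hp
    split_ifs with h
    · have h2 : (p : ℝ) ^ (-(1 / 4) : ℝ) ≤ 1 := Real.rpow_le_one_of_one_le_of_nonpos hp1 (by norm_num)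
      have h3 : 0 ≤ s ^ (-(1 / 8) : ℝ) := by positivity
      linarith
    · push Not at h
      have h2 : (p : ℝ) ^ (-(1 / 4) : ℝ) ≤ (√s) ^ (-(1 / 4) : ℝ) :=
        Real.rpow_le_rpow_of_nonpos (Real.sqrt_pos.2 hs0) h.le (by norm_num)
      have h3 : (√s) ^ (-(1 / 4) : ℝ) = s ^ (-(1 / 8) : ℝ) := by
        rw [Real.sqrt_eq_rpow, ← Real.rpow_mul hs0.le]
        norm_num
      linarith
  have h2 : ((P.filter fun p : ℕ => (p : ℝ) ≤ √s).card : ℝ) ≤ √s := by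
    have h3 : P.filter (fun p : ℕ => (p : ℝ) ≤ √s) ⊆ Ioc 0 ⌊√s⌋₊ := by
      intro p hp
      rw [mem_filter] at hp
      rw [mem_Ioc]
      exact ⟨hP p hp.1, Nat.le_floor hp.2⟩
    have h4 := card_le_card h3
    rw [Nat.card_Ioc, Nat.sub_zero] at h4
    calc ((P.filter fun p : ℕ => (p : ℝ) ≤ √s).card : ℝ) ≤ (⌊√s⌋₊ : ℝ) := by exact_mod_cast h4
      _ ≤ √s := Nat.floor_le (Real.sqrt_nonneg _)
  have h3 : ∑ p ∈ P, (p : ℝ) ^ (-(1 / 4) : ℝ) ≤ s * s ^ (-(1 / 8) : ℝ) + √s := by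
    refine (sum_le_sum h1).trans ?_
    rw [sum_add_distrib, sum_const, nsmul_eq_mul, ← hs, ← sum_filter, sum_const, nsmul_eq_mul, mul_one]
    linarith
  have h4 : s * s ^ (-(1 / 8) : ℝ) = s ^ (7 / 8 : ℝ) := by
    nth_rewrite 1 [← Real.rpow_one s]
    rw [← Real.rpow_add hs0]
    norm_num
  have h5 : √s ≤ s ^ (7 / 8 : ℝ) := by
    rw [Real.sqrt_eq_rpow]
    exact Real.rpow_le_rpow_of_exponent_le hs1 (by norm_num)
  rw [← mul_sum]
  rw [h4] at h3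
  linarith

/-- **Large deviations** of sums of quadratic characters over the integers with digits in given sets. -/
theorem digit_dev (B : ℕ) (hB : 2 ≤ B) : ∃ K : ℕ, 1 ≤ K ∧ ∀ (c : ℤ) (g : ℕ), 1 ≤ g → ∀ (N : ℕ) (A : Fin N → Finset ℕ),
    (∀ j, ∀ a ∈ A j, a < B) → (∀ j, 2 ≤ (A j).card) → ∀ (P : Finset ℕ) (y : ℕ), (∀ p ∈ P, p.Prime) →
    (∀ p ∈ P, 100 < p) → (∀ p ∈ P, ¬ p ∣ g * B.factorial) → (∀ p ∈ P, p ≤ y) → ∀ (ε : ℕ → ℤ),
    (∀ p, ε p = 1 ∨ ε p = -1) → ∀ k : ℕ, 1 ≤ k → K * (Nat.log B (y ^ (2 * k)) + 1) ≤ N → 2 * k ≤ P.card →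
    ∀ T τ : ℝ, 0 < T → 2 * k * (P.card : ℝ) ≤ T ^ 2 → 6 * (P.card : ℝ) ^ (7 / 8 : ℝ) ≤ T → 0 < τ →
    (((Fintype.piFinset A).filter fun d => τ ≤ |((∑ p ∈ P, ε p * chi p (val c g B d) : ℤ) : ℝ)|).card : ℝ) ≤
      (Fintype.piFinset A).card * (2 * (13 * T / τ) ^ (2 * k)) := by
  classical
  obtain ⟨K₀, hK₀⟩ := exists_pow_lt_of_lt_one (show (0 : ℝ) < 1 / (200 * B) by
    have : (2 : ℝ) ≤ B := by exact_mod_cast hB
    positivity) (lamB_lt_one B hB)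
  have hB2 : (2 : ℝ) ≤ B := by exact_mod_cast hB
  have hl := lamB_nonneg B hB
  have hl1 := (lamB_lt_one B hB).le
  have hKx : 2 * (B : ℝ) * lamB B ^ (K₀ + 1) ≤ 1 / 100 := by
    have h1 : lamB B ^ (K₀ + 1) ≤ lamB B ^ K₀ := pow_le_pow_of_le_one hl hl1 (Nat.le_succ _)
    have h2 : lamB B ^ (K₀ + 1) ≤ 1 / (200 * B) := h1.trans hK₀.le
    calc 2 * (B : ℝ) * lamB B ^ (K₀ + 1) ≤ 2 * B * (1 / (200 * B)) := mul_le_mul_of_nonneg_left h2 (by positivity)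
      _ = 1 / 100 := by field_simp; norm_num
  refine ⟨K₀ + 1, Nat.succ_le_succ (Nat.zero_le _), ?_⟩
  intro c g hg N A hA h2 P y hP hP100 hPM hPy ε hε k hk hkN hkP T τ hT0 hT hTμ hτ
  set D := Fintype.piFinset A with hD
  set X : (Fin N → ℕ) → P → ℝ := fun d i => ((ε i * chi i (val c g B d) : ℤ) : ℝ) with hX
  set μ : P → ℝ := fun i => 3 * ((i : ℕ) : ℝ) ^ (-(1 / 4) : ℝ) with hμ
  have hXpm : ∀ d i, X d i = 1 ∨ X d i = -1 := by
    intro d i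
    rw [hX]
    simp only
    rcases hε i with h3 | h3 <;> rcases chi_sq i (val c g B d) with h4 | h4 <;> rw [h3, h4] <;> norm_num
  have hμ1 : ∀ i, μ i ≤ 1 := by
    intro i
    have h3 : (81 : ℝ) ≤ ((i : ℕ) : ℝ) := by
      have := hP100 _ i.2
      exact_mod_cast (by omega : 81 ≤ (i : ℕ))
    have h4 : ((i : ℕ) : ℝ) ^ (-(1 / 4) : ℝ) ≤ (81 : ℝ) ^ (-(1 / 4) : ℝ) :=
      Real.rpow_le_rpow_of_nonpos (by norm_num) h3 (by norm_num)
    have h5 : (81 : ℝ) ^ (-(1 / 4) : ℝ) = 1 / 3 := by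
      rw [show (81 : ℝ) = 3 ^ (4 : ℝ) by norm_num, ← Real.rpow_mul (by norm_num)]
      norm_num
    rw [hμ]
    simp only
    rw [h5] at h4
    linarith
  have hbound : ∀ O : Finset P, O.card ≤ 2 * k → ∑ d ∈ D, ∏ i ∈ O, X d i ≤ D.card * ∏ i ∈ O, μ i := by
    intro O hO
    set O' : Finset ℕ := O.map (Function.Embedding.subtype _) with hO'
    have hmem : ∀ p ∈ O', p ∈ P := by
      intro p hp
      rw [hO', mem_map] at hp
      obtain ⟨i, -, rfl⟩ := hp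
      exact i.2
    have hprod : ∀ F : ℕ → ℝ, ∏ i ∈ O, F i = ∏ p ∈ O', F p := by
      intro F
      rw [hO', prod_map]
      rfl
    have hN' : (K₀ + 1) * (Nat.log B (∏ p ∈ O', p) + 1) ≤ N := by
      refine le_trans ?_ hkN
      apply Nat.mul_le_mul_left
      apply Nat.succ_le_succ
      apply Nat.log_mono_right
      have hy : 1 ≤ y := by
        have h3 : 0 < P.card := by omega
        obtain ⟨p, hp⟩ := card_pos.1 h3
        exact (hP p hp).one_lt.le.trans (hPy p hp)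
      calc ∏ p ∈ O', p ≤ ∏ p ∈ O', y := prod_le_prod' fun p hp => hPy p (hmem p hp)
        _ = y ^ O'.card := by rw [prod_const]
        _ ≤ y ^ (2 * k) := by
          apply Nat.pow_le_pow_right hy
          rw [hO', card_map]
          exact hO
    have h3 := prod_bound c g B hg hB A hA h2 (K₀ + 1) (Nat.succ_le_succ (Nat.zero_le _)) hKx O'
      (fun p hp => hP p (hmem p hp)) (fun p hp => by have := hP100 p (hmem p hp); omega)
      (fun p hp => hPM p (hmem p hp)) hN'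
    have h4 : ∀ d, ∏ i ∈ O, X d i = (∏ p ∈ O', (ε p : ℝ)) * ∏ p ∈ O', ((chi p (val c g B d) : ℤ) : ℝ) := by
      intro d
      rw [← prod_mul_distrib, ← hprod]
      refine prod_congr rfl fun i _ => ?_
      rw [hX]
      push_cast
      rfl
    have h5 : |∏ p ∈ O', (ε p : ℝ)| = 1 := by
      rw [abs_prod]
      apply prod_eq_one
      intro p _
      rcases hε p with h6 | h6 <;> rw [h6] <;> norm_num
    rw [sum_congr rfl fun d _ => h4 d, ← mul_sum]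
    have h6 : |∑ d ∈ D, ∏ p ∈ O', ((chi p (val c g B d) : ℤ) : ℝ)| ≤ D.card * ∏ i ∈ O, μ i := by
      have h7 : (∑ d ∈ D, ∏ p ∈ O', ((chi p (val c g B d) : ℤ) : ℂ)) =
          (((∑ d ∈ D, ∏ p ∈ O', ((chi p (val c g B d) : ℤ) : ℝ)) : ℝ) : ℂ) := by push_cast; rfl
      rw [h7, Complex.norm_real, Real.norm_eq_abs] at h3
      rw [hμ, hprod (fun p => 3 * (p : ℝ) ^ (-(1 / 4) : ℝ))]
      exact h3
    calc (∏ p ∈ O', (ε p : ℝ)) * ∑ d ∈ D, ∏ p ∈ O', ((chi p (val c g B d) : ℤ) : ℝ)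
        ≤ |(∏ p ∈ O', (ε p : ℝ)) * ∑ d ∈ D, ∏ p ∈ O', ((chi p (val c g B d) : ℤ) : ℝ)| := le_abs_self _
      _ = |∑ d ∈ D, ∏ p ∈ O', ((chi p (val c g B d) : ℤ) : ℝ)| := by rw [abs_mul, h5, one_mul]
      _ ≤ _ := h6
  have hcard : Fintype.card P = P.card := Fintype.card_coe P
  have hsum : ∀ F : ℕ → ℝ, ∑ i : P, F i = ∑ p ∈ P, F p := fun F => Finset.sum_coe_sort P F
  have h3 := tail D X hXpm (μ := μ) (fun i => by rw [hμ]; positivity) hμ1 k hk hbound (by rw [hcard]; exact hkP)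
    (T := T) (τ := τ) hT0 (by rw [hcard]; exact hT) (by
      rw [hμ, hsum (fun p => 3 * (p : ℝ) ^ (-(1 / 4) : ℝ))]
      exact (sum_mu P fun p hp => (hP p hp).one_lt.le).trans hTμ) hτ
  convert h3 using 5 with d
  rw [hX, hsum (fun p => ((ε p * chi p (val c g B d) : ℤ) : ℝ))]
  push_cast
  rfl

end Pool.Agent.D0H92.QC
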