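import Pool.Agent.D0H92.QC.Fld
import Pool.Agent.D0H92.AG.Cube

set_option autoImplicit false

/-!
# Almost all members of a digit family: one set of primes
-/

namespace Pool.Agent.D0H92.QC

open Finset Filter Pool.Agent.D0H92.AG Pool.Agent.D0H92.RG

/-- the members of the family -/
def num (c g : ℤ) (B : ℕ) {N : ℕ} (t : Fin N → ℕ) : ℤ := c + g * ∑ j : Fin N, (B : ℤ) ^ (j : ℕ) * t j

lemma num_eq {c g : ℤ} (hg : g ≠ 0) (B : ℕ) {N : ℕ} (t : Fin N → ℕ) :
    num c g B t = g.sign * RG.val (g.sign * c) g.natAbs B t := by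
  unfold num RG.val
  have h1 : g.sign * (g.natAbs : ℤ) = g := Int.sign_mul_natAbs g
  have h2 : g.sign * g.sign = 1 := by
    rcases lt_or_gt_of_ne hg with h | h
    · rw [Int.sign_eq_neg_one_of_neg h]; norm_num
    · rw [Int.sign_eq_one_of_pos h]; norm_num
  rw [mul_add, ← mul_assoc, ← mul_assoc, h1, h2, one_mul]

lemma sum_lt (B : ℕ) : ∀ {N : ℕ} (t : Fin N → ℕ), (∀ j, t j < B) → ∑ j : Fin N, B ^ (j : ℕ) * t j < B ^ N := by
  intro N
  induction N with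
  | zero => intro t _; simp
  | succ N ih =>
    intro t ht
    rw [Fin.sum_univ_castSucc]
    have h1 := ih (fun j => t j.castSucc) (fun j => ht _)
    have h2 := ht (Fin.last N)
    have h3 : B ^ N * t (Fin.last N) + B ^ N ≤ B ^ N * B := by
      calc B ^ N * t (Fin.last N) + B ^ N = B ^ N * (t (Fin.last N) + 1) := by ring
        _ ≤ B ^ N * B := Nat.mul_le_mul_left _ h2
    simp only [Fin.val_castSucc, Fin.val_last]
    rw [pow_succ]
    omega

lemma num_size {B N : ℕ} (hB : 2 ≤ B) (hN : 1 ≤ N) {C : ℝ} {c g : ℤ} (hc : |(c : ℝ)| ≤ Real.exp (C * N))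
    (hg : |(g : ℝ)| ≤ Real.exp (C * N)) (t : Fin N → ℕ) (ht : ∀ j, t j < B) :
    |(num c g B t : ℝ)| ≤ Real.exp ((C + Real.log B + 1) * N) := by
  have h1 := sum_lt B t ht
  obtain ⟨S, hS⟩ : ∃ S : ℕ, S = ∑ j : Fin N, B ^ (j : ℕ) * t j := ⟨_, rfl⟩
  have h2 : num c g B t = c + g * S := by unfold num; rw [hS]; push_cast; rfl
  have h3 : (S : ℝ) ≤ (B : ℝ) ^ N := by rw [← hS] at h1; exact_mod_cast h1.le
  have hB0 : (0 : ℝ) < B := by exact_mod_cast (by omega : 0 < B)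
  have hB1 : (1 : ℝ) ≤ B := by exact_mod_cast (by omega : 1 ≤ B)
  have h4 : (1 : ℝ) ≤ (B : ℝ) ^ N := one_le_pow₀ hB1
  have h5 : |(num c g B t : ℝ)| ≤ Real.exp (C * N) * (2 * (B : ℝ) ^ N) := by
    rw [h2]
    push_cast
    calc |(c : ℝ) + g * S| ≤ |(c : ℝ)| + |(g : ℝ)| * S := by
          refine (abs_add_le _ _).trans ?_
          rw [abs_mul, Nat.abs_cast]
      _ ≤ Real.exp (C * N) + Real.exp (C * N) * (B : ℝ) ^ N :=
          add_le_add hc (mul_le_mul hg h3 (Nat.cast_nonneg _) (Real.exp_pos _).le)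
      _ ≤ _ := by nlinarith [Real.exp_pos (C * N)]
  refine h5.trans ?_
  have h6 : (B : ℝ) ^ N = Real.exp (Real.log B * N) := by
    rw [mul_comm, Real.exp_nat_mul, Real.exp_log hB0]
  have h7 : (2 : ℝ) ≤ Real.exp (1 * N) := by
    have hN1 : (1 : ℝ) ≤ N := by exact_mod_cast hN
    have := Real.add_one_le_exp (1 * (N : ℝ))
    linarith
  rw [h6]
  calc Real.exp (C * N) * (2 * Real.exp (Real.log B * N)) ≤ Real.exp (C * N) * (Real.exp (1 * N) * Real.exp (Real.log B * N)) := by gcongr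
    _ = _ := by rw [← Real.exp_add, ← Real.exp_add]; congr 1; ring

lemma flip_sum (Q : Finset ℕ) (m : ℕ) (n : ℤ) (f e : ℕ → ℤ) (hf : ∀ p, |f p| ≤ 1) (he : ∀ p, |e p| ≤ 1)
    (hfe : ∀ p ∈ good m Q, ¬ (p : ℤ) ∣ n → e p = f p) :
    |∑ p ∈ Q, e p| ≤ |∑ p ∈ good m Q, f p| + 2 * ((Q.filter fun p : ℕ => (p : ℤ) ∣ n).card : ℤ) +
      ((Q.filter fun p => ¬ (100 < p ∧ ¬ p ∣ m)).card : ℤ) := by
  have h1 : ∑ p ∈ Q, e p = ∑ p ∈ good m Q, f p + ∑ p ∈ good m Q, (e p - f p) + ∑ p ∈ Q.filter (fun p => ¬ (100 < p ∧ ¬ p ∣ m)), e p := by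
    rw [sum_sub_distrib, ← sum_filter_add_sum_filter_not Q (fun p => 100 < p ∧ ¬ p ∣ m) e]
    unfold good
    ring
  have h2 : |∑ p ∈ good m Q, (e p - f p)| ≤ 2 * ((Q.filter fun p : ℕ => (p : ℤ) ∣ n).card : ℤ) := by
    have h3 : ∀ p ∈ good m Q, |e p - f p| ≤ if (p : ℤ) ∣ n then 2 else 0 := by
      intro p hp
      split_ifs with h
      · refine (abs_sub _ _).trans ?_
        linarith [hf p, he p]
      · rw [hfe p hp h]; simp
    refine (abs_sum_le_sum_abs _ _).trans ((sum_le_sum h3).trans ?_)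
    rw [← sum_filter, sum_const, nsmul_eq_mul, mul_comm]
    apply mul_le_mul_of_nonneg_left _ (by norm_num)
    have : ((good m Q).filter fun p : ℕ => (p : ℤ) ∣ n) ⊆ Q.filter fun p : ℕ => (p : ℤ) ∣ n :=
      filter_subset_filter _ (filter_subset _ _)
    exact_mod_cast card_le_card this
  have h3 : |∑ p ∈ Q.filter (fun p => ¬ (100 < p ∧ ¬ p ∣ m)), e p| ≤ ((Q.filter fun p => ¬ (100 < p ∧ ¬ p ∣ m)).card : ℤ) := by
    refine (abs_sum_le_sum_abs _ _).trans ((sum_le_sum fun p _ => he p).trans ?_)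
    simp
  rw [h1]
  refine (abs_add_le _ _).trans ?_
  have := abs_add_le (∑ p ∈ good m Q, f p) (∑ p ∈ good m Q, (e p - f p))
  linarith

lemma count_bad (Q : Finset ℕ) (hQ : ∀ p ∈ Q, p.Prime) {B g : ℕ} (hg : 1 ≤ g) :
    ((Q.filter fun p => ¬ (100 < p ∧ ¬ p ∣ g * B.factorial)).card : ℝ) ≤ 101 + 2 * (Real.log g + Real.log B.factorial) := by
  have h4 : Q.filter (fun p => ¬ (100 < p ∧ ¬ p ∣ g * B.factorial)) ⊆
      range 101 ∪ Q.filter (fun p => p ∣ g * B.factorial) := by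
    intro p hp
    rw [mem_filter] at hp
    rw [mem_union, mem_range, mem_filter]
    by_cases h5 : 100 < p
    · right
      refine ⟨hp.1, ?_⟩
      by_contra h6
      exact hp.2 ⟨h5, h6⟩
    · left; omega
  have h5 := (card_le_card h4).trans (card_union_le _ _)
  rw [card_range] at h5
  have hm0 : g * B.factorial ≠ 0 := (Nat.mul_pos hg (Nat.factorial_pos _)).ne'
  have h6 := card_dvd (Q.filter (fun p => p ∣ g * B.factorial)) (fun p hp => hQ p (mem_filter.1 hp).1)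
    ((g * B.factorial : ℕ) : ℤ) (by exact_mod_cast hm0) (fun p hp => Int.natCast_dvd_natCast.2 (mem_filter.1 hp).2)
  have h7 : Real.log |(((g * B.factorial : ℕ) : ℤ) : ℝ)| = Real.log g + Real.log B.factorial := by
    have hg0 : (g : ℝ) ≠ 0 := by exact_mod_cast (by omega : g ≠ 0)
    have hf0 : ((B.factorial : ℕ) : ℝ) ≠ 0 := by exact_mod_cast (Nat.factorial_pos B).ne'
    rw [Int.cast_natCast, Nat.abs_cast, Nat.cast_mul, Real.log_mul hg0 hf0]
  rw [h7] at h6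
  have h9 : ((Q.filter fun p => ¬ (100 < p ∧ ¬ p ∣ g * B.factorial)).card : ℝ) ≤
      101 + ((Q.filter (fun p => p ∣ g * B.factorial)).card : ℝ) := by exact_mod_cast h5
  linarith

/-- a multiple of `N` is small in comparison with a power of the number of primes -/
lemma absorb (δ α C : ℝ) (hδ : 0 < δ) (hα : 0 < α) (hαδ : α ≤ δ / (4 * (1 + δ))) :
    ∃ N₀ : ℕ, ∀ N : ℕ, N₀ ≤ N → ∀ s : ℝ, (N : ℝ) ^ (1 + δ) ≤ s → C * N ≤ s ^ (1 - α) / 4 := by
  have ht : Tendsto (fun N : ℕ => (N : ℝ) ^ α) atTop atTop := (tendsto_rpow_atTop hα).comp tendsto_natCast_atTop_atTop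
  obtain ⟨N₀, hN₀⟩ := eventually_atTop.1 ((ht.eventually_ge_atTop (4 * C)).and (eventually_ge_atTop 1))
  refine ⟨N₀, fun N hN s hs => ?_⟩
  obtain ⟨h1, h2⟩ := hN₀ N hN
  have hN1 : (1 : ℝ) ≤ N := by exact_mod_cast h2
  have hN0 : (0 : ℝ) < N := by linarith
  have hs1 : 1 ≤ s := (Real.one_le_rpow hN1 (by linarith)).trans hs
  have hs0 : 0 < s := by linarith
  have h5 : (N : ℝ) ≤ s ^ (1 / (1 + δ)) := by
    have h6 := Real.rpow_le_rpow (by positivity) hs (show 0 ≤ 1 / (1 + δ) by positivity)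
    rw [← Real.rpow_mul hN0.le] at h6
    have h7 : (1 + δ) * (1 / (1 + δ)) = 1 := by field_simp
    rwa [h7, Real.rpow_one] at h6
  have h6 : (N : ℝ) ≤ s := by
    refine le_trans ?_ hs
    calc (N : ℝ) = (N : ℝ) ^ (1 : ℝ) := (Real.rpow_one _).symm
      _ ≤ _ := Real.rpow_le_rpow_of_exponent_le hN1 (by linarith)
  have h7 : 4 * C ≤ s ^ α := h1.trans (Real.rpow_le_rpow hN0.le h6 hα.le)
  have h8 : 4 * C * N ≤ s ^ α * s ^ (1 / (1 + δ)) := by
    by_cases hC : 0 ≤ C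
    · exact mul_le_mul h7 h5 hN0.le (by positivity)
    · have : 4 * C * N ≤ 0 := by nlinarith
      refine this.trans (by positivity)
  have h9 : s ^ α * s ^ (1 / (1 + δ)) ≤ s ^ (1 - α) := by
    rw [← Real.rpow_add hs0]
    apply Real.rpow_le_rpow_of_exponent_le hs1
    rw [le_div_iff₀ (by positivity)] at hαδ
    have h8 : 1 / (1 + δ) = 1 - δ / (1 + δ) := by field_simp; ring
    have h9 : 4 * α ≤ δ / (1 + δ) := by rw [le_div_iff₀ (by positivity)]; linarith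
    rw [h8]
    linarith
  linarith

lemma abs_le_one {x : ℤ} (h : x = 1 ∨ x = -1) : |x| ≤ 1 := by rcases h with h | h <;> rw [h] <;> norm_num

lemma mul_pm {x y : ℤ} (hx : x = 1 ∨ x = -1) (hy : y = 1 ∨ y = -1) : x * y = 1 ∨ x * y = -1 := by
  rcases hx with h | h <;> rcases hy with h' | h' <;> rw [h, h'] <;> simp

lemma chi_mul {p : ℕ} (hp : p.Prime) {a b : ℤ} (ha : ¬ (p : ℤ) ∣ a) (hb : ¬ (p : ℤ) ∣ b) :
    chi p (a * b) = chi p a * chi p b := by
  have : Fact p.Prime := ⟨hp⟩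
  have hpp : Prime (p : ℤ) := Nat.prime_iff_prime_int.1 hp
  have hab : ¬ (p : ℤ) ∣ a * b := fun h => (hpp.dvd_or_dvd h).elim ha hb
  rw [chi_eq, chi_eq, chi_eq, if_neg ha, if_neg hb, if_neg hab, legendreSym.mul]
  ring

lemma chi_zero (p : ℕ) : chi p 0 = 1 := by
  unfold chi
  split_ifs with h hd
  · have := Fact.mk h
    simp
  · exact absurd (dvd_zero _) hd
  · rfl

lemma chi_sq_eq {p : ℕ} (hp : p.Prime) {a z : ℤ} (ha : ¬ (p : ℤ) ∣ a) (h : a = z * z) : chi p a = 1 := by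
  have hz : ¬ (p : ℤ) ∣ z := fun hz => ha (h ▸ hz.mul_right z)
  rw [h, chi_mul hp hz hz]
  rcases chi_sq p z with h | h <;> rw [h] <;> norm_num

end Pool.Agent.D0H92.QC
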