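import Pool.Agent.D0H92.QC.Fin

set_option autoImplicit false

/-!
# Almost all members of a digit family: one set of primes, and small discriminants
-/

namespace Pool.Agent.D0H92.QC

open Finset Filter Pool.Agent.D0H92.AG Pool.Agent.D0H92.RG

lemma sign_pm {g : ℤ} (hg : g ≠ 0) : g.sign = 1 ∨ g.sign = -1 := by
  rcases lt_or_gt_of_ne hg with h | h
  · right; exact Int.sign_eq_neg_one_of_neg h
  · left; exact Int.sign_eq_one_of_pos h

lemma not_dvd_sign {p : ℕ} (hp : p.Prime) {g : ℤ} (hg : g ≠ 0) : ¬ (p : ℤ) ∣ g.sign := by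
  intro h
  have h1 : (p : ℤ) ∣ 1 := by
    rcases sign_pm hg with h2 | h2
    · rwa [h2] at h
    · rw [h2] at h; exact (dvd_neg (α := ℤ)).1 h
  have h2 : p ∣ 1 := by exact_mod_cast h1
  exact hp.one_lt.ne' (Nat.dvd_one.1 h2)

lemma log_natAbs {g : ℤ} (hg : g ≠ 0) {x : ℝ} (h : |(g : ℝ)| ≤ Real.exp x) : Real.log g.natAbs ≤ x := by
  have h1 : ((g.natAbs : ℕ) : ℝ) = |(g : ℝ)| := by rw [Nat.cast_natAbs, Int.cast_abs]
  rw [h1, Real.log_le_iff_le_exp (abs_pos.2 (by exact_mod_cast hg))]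
  exact h

open Classical in
/-- half of the primes of one set split, with exponentially few exceptions -/
theorem half_set (B : ℕ) (hB : 2 ≤ B) (C δ ρ : ℝ) (hC : 0 ≤ C) (hδ : 0 < δ) (hρ : 0 < ρ) (hρ1 : ρ ≤ 1) :
    ∃ α β : ℝ, 0 < α ∧ α ≤ 1 / 16 ∧ 0 < β ∧ β ≤ 1 ∧ ∃ N₀ : ℕ, ∀ N : ℕ, N₀ ≤ N → ∀ (c g : ℤ), g ≠ 0 →
      |(c : ℝ)| ≤ Real.exp (C * N) → |(g : ℝ)| ≤ Real.exp (C * N) →
      ∀ A : Fin N → Finset ℕ, (∀ j, ∀ a ∈ A j, a < B) → (∀ j, 2 ≤ (A j).card) →
      ∀ (Q : Finset ℕ) (y : ℕ), (∀ p ∈ Q, p.Prime) → (∀ p ∈ Q, p ≤ y) → Real.log y ≤ β * N →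
      (N : ℝ) ^ (1 + δ) ≤ Q.card → (y : ℝ) ^ ρ ≤ Q.card →
      (((Fintype.piFinset A).filter fun t => ¬ ∀ d, Disc d → num c g B t ≠ 0 → IsSquare (num c g B t * d) →
          |2 * ((Q.filter (Splits d)).card : ℝ) - Q.card| ≤ (Q.card : ℝ) ^ (1 - α)).card : ℝ) ≤
        (Fintype.piFinset A).card * (2 * Real.exp (-(β * N))) := by
  obtain ⟨α, β, hα, hα16, hαδ, hβ, hβ1, N₁, hN₁⟩ := core B hB C δ ρ hC hδ hρ hρ1
  obtain ⟨N₂, hN₂⟩ := absorb δ α (4 * (C + Real.log B + 1) + 101 + 2 * C + 2 * Real.log B.factorial) hδ hα hαδ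
  refine ⟨α, β, hα, hα16, hβ, hβ1, N₁ + N₂ + 1, ?_⟩
  intro N hN c g hg hcN hgN A hA h2 Q y hQ hQy hy hQ1 hQ2
  have hN1 : 1 ≤ N := by omega
  have hN1' : (1 : ℝ) ≤ N := by exact_mod_cast hN1
  have hg' : 1 ≤ g.natAbs := Int.natAbs_pos.2 hg
  have hlg : Real.log g.natAbs ≤ C * N := log_natAbs hg hgN
  have h3 := hN₁ N (by omega) (g.sign * c) g.natAbs hg' hlg A hA h2 Q y hQ hQy hy hQ1 hQ2 (fun p => chi p g.sign)
    (fun p => chi_sq p _)
  refine le_trans ?_ h3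
  have h4 := hN₂ N (by omega) _ hQ1
  refine Nat.cast_le.2 (card_le_card ?_)
  intro t ht
  rw [mem_filter] at ht ⊢
  refine ⟨ht.1, ?_⟩
  by_contra hcon
  rw [not_le] at hcon
  apply ht.2
  intro d hd hn hsq
  have htB : ∀ j, t j < B := fun j => hA j _ (Fintype.mem_piFinset.1 ht.1 j)
  have hform := form hd hsq
  have heq := num_eq (c := c) hg B t
  have h5 := flip_sum Q (g.natAbs * B.factorial) (num c g B t)
    (fun p => chi p g.sign * chi p (RG.val (g.sign * c) g.natAbs B t)) (fun p => if Splits d p then 1 else -1)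
    (fun p => abs_le_one (mul_pm (chi_sq _ _) (chi_sq _ _)))
    (fun p => by split_ifs <;> norm_num)
    (by
      intro p hp hpn
      have hpQ : p ∈ Q := (mem_filter.1 hp).1
      have hp100 : 100 < p := (mem_filter.1 hp).2.1
      have hpv : ¬ (p : ℤ) ∣ RG.val (g.sign * c) g.natAbs B t := fun h => hpn (heq ▸ h.mul_left _)
      rw [← chi_mul (hQ p hpQ) (not_dvd_sign (hQ p hpQ) hg) hpv, ← heq]
      by_cases hs : Splits d p
      · rw [if_pos hs, ((split_iff (hQ p hpQ) (by omega) hd hpn hform).1 hs)]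
      · rw [if_neg hs]
        rcases chi_sq p (num c g B t) with h | h
        · exact absurd ((split_iff (hQ p hpQ) (by omega) hd hpn hform).2 h) hs
        · rw [h])
  have h6 : ∑ p ∈ Q, (if Splits d p then (1 : ℤ) else -1) = 2 * ((Q.filter (Splits d)).card : ℤ) - Q.card := by
    have h7 : ∀ p ∈ Q, (if Splits d p then (1 : ℤ) else -1) = 2 * (if Splits d p then 1 else 0) - 1 := by
      intro p _
      split_ifs <;> norm_num
    rw [sum_congr rfl h7, sum_sub_distrib, ← mul_sum, sum_boole]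
    simp
  rw [h6] at h5
  have h7 : |2 * ((Q.filter (Splits d)).card : ℝ) - Q.card| ≤
      |((∑ p ∈ good (g.natAbs * B.factorial) Q, chi p g.sign * chi p (RG.val (g.sign * c) g.natAbs B t) : ℤ) : ℝ)| +
      2 * ((Q.filter fun p : ℕ => (p : ℤ) ∣ num c g B t).card : ℝ) +
      ((Q.filter fun p => ¬ (100 < p ∧ ¬ p ∣ g.natAbs * B.factorial)).card : ℝ) := by
    have h8 : (((|2 * ((Q.filter (Splits d)).card : ℤ) - Q.card| : ℤ)) : ℝ) ≤ _ := Int.cast_le.2 h5
    push_cast at h8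
    push_cast
    exact h8
  have h8 := card_dvd (Q.filter fun p : ℕ => (p : ℤ) ∣ num c g B t) (fun p hp => hQ p (mem_filter.1 hp).1) _ hn
    (fun p hp => (mem_filter.1 hp).2)
  have h9 := count_bad Q hQ (B := B) hg'
  have h10 : Real.log |(num c g B t : ℝ)| ≤ (C + Real.log B + 1) * N := by
    rw [Real.log_le_iff_le_exp (abs_pos.2 (by exact_mod_cast hn))]
    exact num_size hB hN1 hcN hgN t htB
  have hBf : 0 ≤ Real.log B.factorial := Real.log_nonneg (by exact_mod_cast Nat.factorial_pos B)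
  have h11 : Real.log B.factorial ≤ Real.log B.factorial * N := by nlinarith
  have h12 : 0 ≤ (Q.card : ℝ) ^ (1 - α) := by positivity
  have h13 : 2 * (2 * ((C + Real.log B + 1) * N)) + (101 + 2 * (C * N + Real.log B.factorial)) ≤
      (4 * (C + Real.log B + 1) + 101 + 2 * C + 2 * Real.log B.factorial) * N := by nlinarith
  linarith

open Classical in
/-- few members of the family have a given discriminant -/
theorem not_square (B : ℕ) (hB : 2 ≤ B) (C : ℝ) (hC : 0 ≤ C) :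
    ∃ β : ℝ, 0 < β ∧ β ≤ 1 ∧ ∃ N₀ : ℕ, ∀ N : ℕ, N₀ ≤ N → ∀ (c g : ℤ), g ≠ 0 →
      |(c : ℝ)| ≤ Real.exp (C * N) → |(g : ℝ)| ≤ Real.exp (C * N) →
      ∀ A : Fin N → Finset ℕ, (∀ j, ∀ a ∈ A j, a < B) → (∀ j, 2 ≤ (A j).card) →
      ∀ m : ℤ, |(m : ℝ)| ≤ Real.exp N →
      (((Fintype.piFinset A).filter fun t => (m = 0 ∧ num c g B t = 0) ∨
          (m ≠ 0 ∧ num c g B t ≠ 0 ∧ IsSquare (num c g B t * m))).card : ℝ) ≤
        (Fintype.piFinset A).card * (2 * Real.exp (-(β * N))) := by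
  obtain ⟨α, β, hα, hα16, hαδ, hβ, hβ1, N₁, hN₁⟩ := core B hB C 1 (1 / 2) hC one_pos (by norm_num) (by norm_num)
  obtain ⟨N₂, hN₂⟩ := absorb 1 α (4 * (C + Real.log B + 2) + 101 + 2 * C + 2 * Real.log B.factorial) one_pos hα hαδ
  have hlog : ∀ᶠ N : ℕ in atTop, 3 * Real.log N ≤ β * N := by
    have hcast : Tendsto (fun N : ℕ => (N : ℝ)) atTop atTop := tendsto_natCast_atTop_atTop
    have h := hcast.eventually (Real.isLittleO_log_id_atTop.def (show 0 < β / 3 by positivity))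
    filter_upwards [h, eventually_ge_atTop 1] with N h1 h2
    have hN1 : (1 : ℝ) ≤ N := by exact_mod_cast h2
    rw [id, Real.norm_eq_abs, Real.norm_eq_abs, abs_of_nonneg (Real.log_nonneg hN1), abs_of_nonneg (by linarith)] at h1
    linarith
  obtain ⟨N₃, hN₃⟩ := eventually_atTop.1 (hlog.and many_primes)
  refine ⟨β, hβ, hβ1, N₁ + N₂ + N₃ + 1, ?_⟩
  intro N hN c g hg hcN hgN A hA h2 m hm
  obtain ⟨h3, h4⟩ := hN₃ N (by omega)
  have hN1 : 1 ≤ N := by omega
  have hN1' : (1 : ℝ) ≤ N := by exact_mod_cast hN1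
  have hN0 : (0 : ℝ) < N := by linarith
  have hg' : 1 ≤ g.natAbs := Int.natAbs_pos.2 hg
  have hlg : Real.log g.natAbs ≤ C * N := log_natAbs hg hgN
  obtain ⟨Q, hQdef⟩ : ∃ Q : Finset ℕ, Q = (range (N ^ 3 + 1)).filter Nat.Prime := ⟨_, rfl⟩
  rw [← hQdef] at h4
  have hQ : ∀ p ∈ Q, p.Prime := fun p hp => by rw [hQdef] at hp; exact (mem_filter.1 hp).2
  have hQy : ∀ p ∈ Q, p ≤ N ^ 3 := fun p hp => by
    rw [hQdef] at hp
    have := mem_range.1 (mem_filter.1 hp).1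
    omega
  have hcard : (N : ℝ) ^ 2 + N ≤ Q.card := by exact_mod_cast h4
  have hQ1 : (N : ℝ) ^ (1 + 1 : ℝ) ≤ Q.card := by
    have : (N : ℝ) ^ (1 + 1 : ℝ) = (N : ℝ) ^ 2 := by norm_num
    rw [this]; linarith
  have hQ2 : ((N ^ 3 : ℕ) : ℝ) ^ (1 / 2 : ℝ) ≤ Q.card := by
    rw [Nat.cast_pow, ← Real.rpow_natCast, ← Real.rpow_mul hN0.le]
    refine le_trans ?_ hQ1
    apply Real.rpow_le_rpow_of_exponent_le hN1'
    norm_num
  have hy : Real.log ((N ^ 3 : ℕ) : ℝ) ≤ β * N := by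
    rw [Nat.cast_pow, Real.log_pow]
    exact_mod_cast h3
  have h5 := hN₁ N (by omega) (g.sign * c) g.natAbs hg' hlg A hA h2 Q (N ^ 3) hQ hQy hy hQ1 hQ2 (fun p => chi p (g.sign * m))
    (fun p => chi_sq p _)
  refine le_trans ?_ h5
  have h6 := hN₂ N (by omega) _ hQ1
  refine Nat.cast_le.2 (card_le_card ?_)
  intro t ht
  rw [mem_filter] at ht ⊢
  refine ⟨ht.1, ?_⟩
  have htB : ∀ j, t j < B := fun j => hA j _ (Fintype.mem_piFinset.1 ht.1 j)
  have heq := num_eq (c := c) hg B t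
  obtain ⟨n', hn'0, hn'log, hfe⟩ : ∃ n' : ℤ, n' ≠ 0 ∧ Real.log |(n' : ℝ)| ≤ (C + Real.log B + 2) * N ∧
      ∀ p ∈ good (g.natAbs * B.factorial) Q, ¬ (p : ℤ) ∣ n' →
        (1 : ℤ) = chi p (g.sign * m) * chi p (RG.val (g.sign * c) g.natAbs B t) := by
    have hlB : 0 ≤ Real.log B := Real.log_nonneg (by exact_mod_cast (by omega : 1 ≤ B))
    rcases ht.2 with ⟨hm0, hn0⟩ | ⟨hm0, hn0, hsq⟩
    · refine ⟨1, one_ne_zero, ?_, ?_⟩
      · simp; positivity
      · intro p _ _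
        have hv : RG.val (g.sign * c) g.natAbs B t = 0 := by
          rw [heq] at hn0
          rcases mul_eq_zero.1 hn0 with h | h
          · rcases sign_pm hg with h1 | h1 <;> rw [h1] at h <;> norm_num at h
          · exact h
        rw [hv, hm0, mul_zero, chi_zero]
        norm_num
    · refine ⟨num c g B t * m, mul_ne_zero hn0 hm0, ?_, ?_⟩
      · have h7 : Real.log |(num c g B t : ℝ)| ≤ (C + Real.log B + 1) * N := by
          rw [Real.log_le_iff_le_exp (abs_pos.2 (by exact_mod_cast hn0))]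
          exact num_size hB hN1 hcN hgN t htB
        have h8 : Real.log |(m : ℝ)| ≤ N := by
          rw [Real.log_le_iff_le_exp (abs_pos.2 (by exact_mod_cast hm0))]
          exact hm
        rw [Int.cast_mul, abs_mul, Real.log_mul (abs_ne_zero.2 (by exact_mod_cast hn0)) (abs_ne_zero.2 (by exact_mod_cast hm0))]
        linarith
      · intro p hp hpn
        have hpp : p.Prime := hQ p (mem_filter.1 hp).1
        have hpZ : Prime (p : ℤ) := Nat.prime_iff_prime_int.1 hpp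
        have hpm : ¬ (p : ℤ) ∣ m := fun h => hpn (h.mul_left _)
        have hpnn : ¬ (p : ℤ) ∣ num c g B t := fun h => hpn (h.mul_right _)
        have hpv : ¬ (p : ℤ) ∣ RG.val (g.sign * c) g.natAbs B t := fun h => hpnn (heq ▸ h.mul_left _)
        have hpsm : ¬ (p : ℤ) ∣ g.sign * m := fun h => (hpZ.dvd_or_dvd h).elim (not_dvd_sign hpp hg) hpm
        rw [← chi_mul hpp hpsm hpv]
        obtain ⟨z, hz⟩ := hsq
        symm
        apply chi_sq_eq hpp (z := z)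
        · intro h
          exact (hpZ.dvd_or_dvd h).elim hpsm hpv
        · rw [← hz, heq]
          ring
  have h7 := flip_sum Q (g.natAbs * B.factorial) n'
    (fun p => chi p (g.sign * m) * chi p (RG.val (g.sign * c) g.natAbs B t)) (fun _ => 1)
    (fun p => abs_le_one (mul_pm (chi_sq _ _) (chi_sq _ _))) (fun p => by norm_num) hfe
  have h8 : ∑ p ∈ Q, (fun _ : ℕ => (1 : ℤ)) p = Q.card := by simp
  rw [h8, Nat.abs_cast] at h7
  have h9 : (Q.card : ℝ) ≤
      |((∑ p ∈ good (g.natAbs * B.factorial) Q, chi p (g.sign * m) * chi p (RG.val (g.sign * c) g.natAbs B t) : ℤ) : ℝ)| +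
      2 * ((Q.filter fun p : ℕ => (p : ℤ) ∣ n').card : ℝ) +
      ((Q.filter fun p => ¬ (100 < p ∧ ¬ p ∣ g.natAbs * B.factorial)).card : ℝ) := by
    have h8 : ((Q.card : ℤ) : ℝ) ≤ _ := Int.cast_le.2 h7
    push_cast at h8
    push_cast
    exact h8
  have h10 := card_dvd (Q.filter fun p : ℕ => (p : ℤ) ∣ n') (fun p hp => hQ p (mem_filter.1 hp).1) _ hn'0
    (fun p hp => (mem_filter.1 hp).2)
  have h11 := count_bad Q hQ (B := B) hg'
  have hBf : 0 ≤ Real.log B.factorial := Real.log_nonneg (by exact_mod_cast Nat.factorial_pos B)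
  have h12 : 2 * (2 * ((C + Real.log B + 2) * N)) + (101 + 2 * (C * N + Real.log B.factorial)) ≤
      (4 * (C + Real.log B + 2) + 101 + 2 * C + 2 * Real.log B.factorial) * N := by nlinarith
  have hs1 : (1 : ℝ) ≤ Q.card := by nlinarith
  have h13 : (Q.card : ℝ) ^ (1 - α) ≤ Q.card := by
    calc (Q.card : ℝ) ^ (1 - α) ≤ (Q.card : ℝ) ^ (1 : ℝ) := Real.rpow_le_rpow_of_exponent_le hs1 (by linarith)
      _ = Q.card := Real.rpow_one _
  have h14 : 0 ≤ (Q.card : ℝ) ^ (1 - α) := by positivity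
  linarith

end Pool.Agent.D0H92.QC
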