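import Pool.Agent.D0H92.QC.Core

set_option autoImplicit false

/-!
# The quadratic field of an integer
-/

namespace Pool.Agent.D0H92.QC

open Finset

/-- `d` is the discriminant of a quadratic field. -/
def Disc (d : ℤ) : Prop :=
  d ≠ 1 ∧ ((d % 4 = 1 ∧ Squarefree d) ∨ ∃ m : ℤ, d = 4 * m ∧ (m % 4 = 2 ∨ m % 4 = 3) ∧ Squarefree m)

/-- The prime `p` splits in `ℚ(√d)`. -/
def Splits (d : ℤ) (p : ℕ) : Prop := ¬ (p : ℤ) ∣ d ∧ ∃ x : ℤ, 4 * (p : ℤ) ∣ x ^ 2 - d

lemma disc_mod {d : ℤ} (h : Disc d) : d % 4 = 0 ∨ d % 4 = 1 := by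
  obtain ⟨_, h | ⟨m, hm, _⟩⟩ := h
  · exact Or.inr h.1
  · left; rw [hm]; exact Int.mul_emod_right 4 m

lemma disc_ne {d : ℤ} (h : Disc d) : d ≠ 0 := by
  obtain ⟨_, h | ⟨m, hm, h2, _⟩⟩ := h
  · intro h0; rw [h0] at h; simp at h
  · intro h0
    have : m = 0 := by omega
    rw [this] at h2; simp at h2

/-- every integer which is not a square has a quadratic field -/
lemma exists_disc (n : ℤ) (hn : ¬ IsSquare n) : ∃ d, Disc d ∧ IsSquare (n * d) := by
  have hn0 : n ≠ 0 := fun h => hn (h ▸ ⟨0, by simp⟩)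
  obtain ⟨a, b, hab, hsf⟩ := Nat.sq_mul_squarefree n.natAbs
  obtain ⟨m, hm⟩ : ∃ m : ℤ, m = n.sign * a := ⟨_, rfl⟩
  have hnm : n = m * b ^ 2 := by
    have h1 : n.sign * (n.natAbs : ℤ) = n := Int.sign_mul_natAbs n
    rw [hm, ← h1, ← hab]
    push_cast
    rw [Int.sign_mul, Int.sign_mul]
    have h2 : (n.sign * (b ^ 2 * a : ℕ) : ℤ) = n := by rw [hab]; exact h1
    have h3 : Int.sign (n.sign) = n.sign := Int.sign_sign
    have h4 : Int.sign ((b : ℤ) ^ 2) = 1 := by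
      apply Int.sign_eq_one_of_pos
      have : (b : ℤ) ≠ 0 := by
        intro h0
        have : b = 0 := by exact_mod_cast h0
        rw [this] at hab
        simp at hab
        exact hn0 (Int.natAbs_eq_zero.1 hab.symm)
      positivity
    have h5 : Int.sign (a : ℤ) = 1 := by
      apply Int.sign_eq_one_of_pos
      have : a ≠ 0 := hsf.ne_zero
      positivity
    rw [h3, h4, h5]
    ring
  have hmsf : Squarefree m := by
    rw [← Int.squarefree_natAbs, hm, Int.natAbs_mul, Int.natAbs_sign_of_ne_zero hn0, one_mul, Int.natAbs_natCast]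
    exact hsf
  have hcases : m % 4 = 0 ∨ m % 4 = 1 ∨ m % 4 = 2 ∨ m % 4 = 3 := by omega
  rcases hcases with h | h | h | h
  · exfalso
    have h1 : (2 : ℤ) * 2 ∣ m := by omega
    have := hmsf 2 h1
    rw [Int.isUnit_iff] at this
    omega
  · refine ⟨m, ⟨?_, Or.inl ⟨h, hmsf⟩⟩, ⟨m * b, by rw [hnm]; ring⟩⟩
    intro h1
    apply hn
    rw [hnm, h1]
    exact ⟨b, by ring⟩
  · exact ⟨4 * m, ⟨by omega, Or.inr ⟨m, rfl, Or.inl h, hmsf⟩⟩, ⟨2 * m * b, by rw [hnm]; ring⟩⟩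
  · exact ⟨4 * m, ⟨by omega, Or.inr ⟨m, rfl, Or.inr h, hmsf⟩⟩, ⟨2 * m * b, by rw [hnm]; ring⟩⟩

/-- the integer is the discriminant times a rational square -/
lemma form {n d : ℤ} (hd : Disc d) (h : IsSquare (n * d)) : ∃ u : ℤ, 4 * n = d * u ^ 2 := by
  obtain ⟨z, hz⟩ := h
  have hd0 := disc_ne hd
  obtain ⟨_, ⟨_, hsf⟩ | ⟨m, hm, h2, hsf⟩⟩ := hd
  · have h1 : d ∣ z ^ 2 := ⟨n, by rw [sq, ← hz]; ring⟩
    obtain ⟨u, hu⟩ := (hsf.dvd_pow_iff_dvd two_ne_zero).1 h1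
    refine ⟨2 * u, ?_⟩
    have h3 : d * (4 * n) = d * (d * (2 * u) ^ 2) := by
      have : n * d = d * u * (d * u) := by rw [hz, hu]
      linear_combination 4 * this
    exact mul_left_cancel₀ hd0 h3
  · have hm0 : m ≠ 0 := by rintro rfl; exact hd0 (by simpa using hm)
    have h1 : m ∣ z ^ 2 := ⟨n * 4, by rw [sq, ← hz, hm]; ring⟩
    obtain ⟨u, hu⟩ := (hsf.dvd_pow_iff_dvd two_ne_zero).1 h1
    -- `4 n = m u²`, so `u` is even
    have h3 : 4 * n = m * u ^ 2 := by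
      have : n * (4 * m) = m * u * (m * u) := by rw [← hm, hz, hu]
      have h4 : m * (4 * n) = m * (m * u ^ 2) := by linear_combination this
      exact mul_left_cancel₀ hm0 h4
    have hu2 : Even u := by
      by_contra hodd
      rw [Int.not_even_iff_odd] at hodd
      obtain ⟨k, hk⟩ := hodd
      have h5 : u ^ 2 = 4 * (k ^ 2 + k) + 1 := by rw [hk]; ring
      rw [h5] at h3
      have : 4 * n = 4 * (m * (k ^ 2 + k)) + m := by rw [h3]; ring
      omega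
    obtain ⟨v, hv⟩ := hu2
    refine ⟨v, ?_⟩
    rw [hm, h3, hv]
    ring

lemma size {n d : ℤ} (hn : n ≠ 0) (h : ∃ u : ℤ, 4 * n = d * u ^ 2) : |d| ≤ 4 * |n| := by
  obtain ⟨u, hu⟩ := h
  have hu0 : u ≠ 0 := by
    rintro rfl
    apply hn
    simp at hu
    exact hu
  have h1 : 4 * |n| = |d| * u ^ 2 := by
    have := congrArg abs hu
    rw [abs_mul, abs_mul, abs_pow, sq_abs] at this
    simpa using this
  rw [h1]
  have h2 : 1 ≤ u ^ 2 := by
    have : 0 < u ^ 2 := by positivity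
    omega
  nlinarith [abs_nonneg d]

/-- the quadratic character of the integer decides whether the prime splits -/
lemma split_iff {p : ℕ} (hp : p.Prime) (hp2 : p ≠ 2) {n d : ℤ} (hd : Disc d) (hn : ¬ (p : ℤ) ∣ n)
    (h : ∃ u : ℤ, 4 * n = d * u ^ 2) : Splits d p ↔ chi p n = 1 := by
  have : Fact p.Prime := ⟨hp⟩
  obtain ⟨u, hu⟩ := h
  have hpp : Prime (p : ℤ) := Nat.prime_iff_prime_int.1 hp
  have hp4 : ¬ (p : ℤ) ∣ 4 := by
    intro h4
    have h5 : (p : ℤ) ∣ 2 * 2 := by norm_num; exact h4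
    have h6 : (p : ℤ) ∣ 2 := by rcases hpp.dvd_or_dvd h5 with h | h <;> exact h
    have h7 : p ∣ 2 := by exact_mod_cast h6
    exact hp2 ((Nat.prime_dvd_prime_iff_eq hp Nat.prime_two).1 h7)
  have h4n : ¬ (p : ℤ) ∣ 4 * n := fun h => (hpp.dvd_or_dvd h).elim hp4 hn
  have hpd : ¬ (p : ℤ) ∣ d := fun h => h4n (hu ▸ h.mul_right _)
  have hpu : ¬ (p : ℤ) ∣ u := fun h => h4n (hu ▸ (h.pow two_ne_zero).mul_left _)
  have hc : chi p n = legendreSym p n := by rw [chi_eq, if_neg hn, add_zero]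
  have hz : ∀ {x : ℤ}, ¬ (p : ℤ) ∣ x → (x : ZMod p) ≠ 0 := fun hx h0 => hx ((ZMod.intCast_zmod_eq_zero_iff_dvd _ p).1 h0)
  have hL : legendreSym p n = legendreSym p d := by
    have h1 : legendreSym p (2 ^ 2 * n) = legendreSym p (u ^ 2 * d) := by
      congr 1
      linear_combination hu
    have h2z : ((2 : ℤ) : ZMod p) ≠ 0 := hz (fun h => hp4 (h.trans ⟨2, by norm_num⟩))
    rw [legendreSym.mul, legendreSym.mul, legendreSym.sq_one' p h2z, legendreSym.sq_one' p (hz hpu), one_mul, one_mul] at h1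
    exact h1
  rw [hc, hL, legendreSym.eq_one_iff p (hz hpd)]
  constructor
  · rintro ⟨_, x, hx⟩
    refine ⟨(x : ZMod p), ?_⟩
    have h1 : (p : ℤ) ∣ x ^ 2 - d := (Dvd.intro_left 4 rfl).trans hx
    have h2 := (ZMod.intCast_zmod_eq_zero_iff_dvd _ p).2 h1
    push_cast at h2
    linear_combination -h2
  · rintro ⟨r, hr⟩
    refine ⟨hpd, ?_⟩
    obtain ⟨r', hr'⟩ := ZMod.intCast_surjective r
    have h1 : (p : ℤ) ∣ r' ^ 2 - d := by
      rw [← ZMod.intCast_zmod_eq_zero_iff_dvd]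
      push_cast
      rw [hr', hr]
      ring
    have hodd : (p : ℤ) % 2 = 1 := by
      have := hp.eq_two_or_odd
      omega
    obtain ⟨x, hx1, hx2⟩ : ∃ x : ℤ, (p : ℤ) ∣ x ^ 2 - d ∧ (x - d) % 2 = 0 := by
      by_cases h2 : (r' - d) % 2 = 0
      · exact ⟨r', h1, h2⟩
      · refine ⟨r' + p, ?_, by omega⟩
        have : (r' + p) ^ 2 - d = (r' ^ 2 - d) + p * (2 * r' + p) := by ring
        rw [this]
        exact h1.add (Dvd.intro _ rfl)
    refine ⟨x, ?_⟩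
    have h4 : (4 : ℤ) ∣ x ^ 2 - d := by
      rcases disc_mod hd with h | h
      · have he : x % 2 = 0 := by omega
        obtain ⟨k, hk⟩ : ∃ k, x = 2 * k := ⟨x / 2, by omega⟩
        have : x ^ 2 = 4 * (k ^ 2) := by rw [hk]; ring
        omega
      · have he : x % 2 = 1 := by omega
        obtain ⟨k, hk⟩ : ∃ k, x = 2 * k + 1 := ⟨x / 2, by omega⟩
        have : x ^ 2 = 4 * (k ^ 2 + k) + 1 := by rw [hk]; ring
        omega
    have hcop : IsCoprime (4 : ℤ) (p : ℤ) := by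
      have : IsCoprime (p : ℤ) 4 := (Prime.coprime_iff_not_dvd hpp).2 hp4
      exact this.symm
    exact hcop.mul_dvd h4 hx1

end Pool.Agent.D0H92.QC
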