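import Pool.Agent.D0H92.AG.Four

set_option autoImplicit false

/-!
# The Fourier expansion of the quadratic character modulo a prime
-/

namespace Pool.Agent.D0H92.QC

open Finset Pool.Agent.D0H92.AG

/-- the quadratic character modulo `p`, with the value `1` at the multiples of `p` -/
noncomputable def chi (p : ℕ) (m : ℤ) : ℤ :=
  if h : p.Prime then (haveI := Fact.mk h; legendreSym p m) + (if (p : ℤ) ∣ m then 1 else 0) else 1

lemma chi_eq (p : ℕ) [hp : Fact p.Prime] (m : ℤ) : chi p m = legendreSym p m + (if (p : ℤ) ∣ m then 1 else 0) := by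
  unfold chi
  rw [dif_pos hp.out]

lemma chi_sq (p : ℕ) (m : ℤ) : chi p m = 1 ∨ chi p m = -1 := by
  unfold chi
  split_ifs with h hd
  · have := Fact.mk h
    left
    have : legendreSym p m = 0 := by
      rw [legendreSym.eq_zero_iff]
      exact (ZMod.intCast_zmod_eq_zero_iff_dvd m p).2 hd
    rw [this]; rfl
  · have := Fact.mk h
    have hm : (m : ZMod p) ≠ 0 := fun h0 => hd ((ZMod.intCast_zmod_eq_zero_iff_dvd m p).1 h0)
    rcases legendreSym.eq_one_or_neg_one p hm with h1 | h1 <;> rw [h1] <;> simp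
  · left; rfl

section
variable (p : ℕ) [hp : Fact p.Prime]

lemma ee_std (x : ℤ) : ee ((x : ℝ) / p) = ZMod.stdAddChar (x : ZMod p) := by
  have : NeZero p := ⟨hp.out.ne_zero⟩
  rw [ZMod.stdAddChar_coe]
  unfold ee
  congr 1
  push_cast
  ring

lemma sum_range_zmod (g : ZMod p → ℂ) : ∑ b ∈ range p, g ((b : ℕ) : ZMod p) = ∑ a : ZMod p, g a := by
  have : NeZero p := ⟨hp.out.ne_zero⟩
  apply sum_bij (fun (b : ℕ) _ => (b : ZMod p))
  · intro b _; exact mem_univ _
  · intro a ha b hb hab
    rw [mem_range] at ha hb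
    have := congrArg ZMod.val hab
    rwa [ZMod.val_natCast, ZMod.val_natCast, Nat.mod_eq_of_lt ha, Nat.mod_eq_of_lt hb] at this
  · intro b _
    exact ⟨b.val, mem_range.mpr (ZMod.val_lt b), by simp⟩
  · intro a _; rfl

/-- the quadratic character with complex values -/
noncomputable def qc : MulChar (ZMod p) ℂ := (quadraticChar (ZMod p)).ringHomComp (Int.castRingHom ℂ)

lemma qc_apply (x : ℤ) : qc p (x : ZMod p) = ((legendreSym p x : ℤ) : ℂ) := by
  unfold qc legendreSym
  simp

lemma qc_quad : (qc p).IsQuadratic := (quadraticChar_isQuadratic (ZMod p)).comp _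

lemma qc_ne_one (hp2 : p ≠ 2) : qc p ≠ 1 := by
  have h1 : quadraticChar (ZMod p) ≠ 1 := quadraticChar_ne_one (by rwa [ZMod.ringChar_zmod_n])
  unfold qc
  intro h
  apply h1
  rw [MulChar.ringHomComp_eq_one_iff] at h
  · exact h
  · exact Int.cast_injective

lemma sum_leg (hp2 : p ≠ 2) : ∑ x ∈ range p, ((legendreSym p (x : ℤ) : ℤ) : ℂ) = 0 := by
  have h1 := quadraticChar_sum_zero (F := ZMod p) (by rwa [ZMod.ringChar_zmod_n])
  have h2 : ∑ x ∈ range p, qc p ((x : ℕ) : ZMod p) = 0 := by
    rw [sum_range_zmod p (fun a => qc p a)]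
    unfold qc
    simp only [MulChar.ringHomComp_apply, Int.coe_castRingHom]
    rw [← Int.cast_sum, h1, Int.cast_zero]
  rw [← h2]
  refine sum_congr rfl fun x _ => ?_
  rw [← qc_apply]
  push_cast
  rfl

lemma gauss_norm (hp2 : p ≠ 2) (a : ZMod p) (ha : a ≠ 0) :
    ‖∑ x : ZMod p, qc p x * ZMod.stdAddChar (a * x)‖ = √p := by
  have : NeZero p := ⟨hp.out.ne_zero⟩
  have hps : (ZMod.stdAddChar (N := p)).IsPrimitive := ZMod.isPrimitive_stdAddChar p
  have h1 := gaussSum_sq (qc_ne_one p hp2) (qc_quad p) hps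
  have h2 : ‖gaussSum (qc p) (ZMod.stdAddChar (N := p))‖ ^ 2 = p := by
    rw [← norm_pow, h1, norm_mul, ZMod.card]
    have h3 : ‖qc p (-1)‖ = 1 := by
      have h4 : (qc p (-1)) ^ 2 = 1 := by
        rw [← map_pow]
        simp
      have h5 : ‖qc p (-1)‖ ^ 2 = 1 := by rw [← norm_pow, h4, norm_one]
      nlinarith [norm_nonneg (qc p (-1))]
    rw [h3, one_mul, Complex.norm_natCast]
  have h6 : ‖gaussSum (qc p) (ZMod.stdAddChar (N := p))‖ = √p := by
    rw [← h2, Real.sqrt_sq (norm_nonneg _)]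
  have h7 := gaussSum_mulShift (qc p) (ZMod.stdAddChar (N := p)) (Units.mk0 a ha)
  have h8 : ‖qc p a‖ = 1 := by
    have h4 : (qc p a) ^ 2 = 1 := by
      rw [← MulChar.pow_apply' (qc p) two_ne_zero, (qc_quad p).sq_eq_one]
      exact MulChar.one_apply ((Units.mk0 a ha).isUnit)
    have h5 : ‖qc p a‖ ^ 2 = 1 := by rw [← norm_pow, h4, norm_one]
    nlinarith [norm_nonneg (qc p a)]
  have h9 : ‖gaussSum (qc p) (AddChar.mulShift (ZMod.stdAddChar (N := p)) a)‖ = √p := by
    have := congrArg norm h7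
    rw [norm_mul, h6] at this
    simp only [Units.val_mk0] at this
    rwa [h8, one_mul] at this
  rw [← h9]
  rfl

/-- **The Fourier expansion.** -/
theorem expand (hp2 : p ≠ 2) : ∃ c : ℕ → ℂ, (∀ a, 0 < a → a < p → ‖c a‖ ≤ 2 / √p) ∧
    ∀ m : ℤ, ((chi p m : ℤ) : ℂ) - 1 / p = ∑ a ∈ Ico 1 p, c a * ee (((a : ℝ) / p) * m) := by
  have hp0 : 0 < p := hp.out.pos
  have hpC : (p : ℂ) ≠ 0 := by exact_mod_cast hp0.ne'
  have hpR : (0 : ℝ) < p := by exact_mod_cast hp0
  set c : ℕ → ℂ := fun a => (∑ x ∈ range p, ((chi p x : ℤ) : ℂ) * ee (-((a : ℝ) / p) * x)) / p with hc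
  have hchi : ∀ x ∈ range p, ((chi p ((x : ℕ) : ℤ) : ℤ) : ℂ) =
      ((legendreSym p (x : ℤ) : ℤ) : ℂ) + (if x = 0 then 1 else 0) := by
    intro x hx
    rw [mem_range] at hx
    rw [chi_eq]
    have : ((p : ℤ) ∣ (x : ℤ)) ↔ x = 0 := by
      rw [Int.natCast_dvd_natCast]
      constructor
      · intro h; exact Nat.eq_zero_of_dvd_of_lt h hx
      · rintro rfl; exact dvd_zero _
    simp only [this]
    push_cast
    rfl
  have h0mem : (0 : ℕ) ∈ range p := mem_range.2 hp0
  refine ⟨c, ?_, ?_⟩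
  · intro a ha hap
    have h1 : c a = ((∑ x : ZMod p, qc p x * ZMod.stdAddChar ((-(a : ZMod p)) * x)) + 1) / p := by
      rw [hc]
      simp only
      congr 1
      have h2 : ∑ x ∈ range p, ((chi p ((x : ℕ) : ℤ) : ℤ) : ℂ) * ee (-((a : ℝ) / p) * x) =
          ∑ x ∈ range p, (((legendreSym p (x : ℤ) : ℤ) : ℂ) * ee (-((a : ℝ) / p) * x) +
            (if x = 0 then 1 else 0) * ee (-((a : ℝ) / p) * x)) := by
        refine sum_congr rfl fun x hx => ?_
        rw [hchi x hx, add_mul]
      rw [h2, sum_add_distrib]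
      congr 1
      · rw [← sum_range_zmod p (fun x => qc p x * ZMod.stdAddChar ((-(a : ZMod p)) * x))]
        refine sum_congr rfl fun x _ => ?_
        have e1 : qc p ((x : ℕ) : ZMod p) = ((legendreSym p (x : ℤ) : ℤ) : ℂ) := by
          rw [← qc_apply]; push_cast; rfl
        have e2 : ZMod.stdAddChar ((-(a : ZMod p)) * ((x : ℕ) : ZMod p)) = ee (-((a : ℝ) / p) * x) := by
          have e3 := ee_std p (-(a : ℤ) * x)
          push_cast at e3
          rw [← e3]
          congr 1
          ring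
        rw [e1, e2]
      · simp [h0mem, ee_zero, hp0]
    have hne : (-(a : ZMod p)) ≠ 0 := by
      rw [neg_ne_zero]
      intro h
      rw [ZMod.natCast_eq_zero_iff] at h
      exact absurd (Nat.le_of_dvd ha h) (by omega)
    rw [h1, norm_div, Complex.norm_natCast, div_le_div_iff₀ hpR (Real.sqrt_pos.2 hpR)]
    have h3 : ‖(∑ x : ZMod p, qc p x * ZMod.stdAddChar ((-(a : ZMod p)) * x)) + 1‖ ≤ √p + 1 := by
      refine (norm_add_le _ _).trans ?_
      rw [gauss_norm p hp2 _ hne, norm_one]
    have h4 : (1 : ℝ) ≤ √p := by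
      rw [Real.one_le_sqrt]
      exact_mod_cast hp0
    have h5 : √(p : ℝ) * √p = p := Real.mul_self_sqrt hpR.le
    nlinarith
  · intro m
    have hc0 : c 0 = 1 / p := by
      rw [hc]
      simp only
      congr 1
      have h2 : ∑ x ∈ range p, ((chi p ((x : ℕ) : ℤ) : ℤ) : ℂ) * ee (-(((0 : ℕ) : ℝ) / p) * x) =
          ∑ x ∈ range p, (((legendreSym p (x : ℤ) : ℤ) : ℂ) + (if x = 0 then 1 else 0)) := by
        refine sum_congr rfl fun x hx => ?_
        rw [hchi x hx]
        simp [ee_zero]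
      rw [h2, sum_add_distrib, sum_leg p hp2]
      simp [hp0]
    have hfull : ∑ a ∈ range p, c a * ee (((a : ℝ) / p) * m) = ((chi p m : ℤ) : ℂ) := by
      have h1 : ∀ a ∈ range p, c a * ee (((a : ℝ) / p) * m) =
          (∑ x ∈ range p, ((chi p ((x : ℕ) : ℤ) : ℤ) : ℂ) * ee (a * (((m - x : ℤ) : ℝ) / p))) / p := by
        intro a _
        rw [hc]
        simp only
        rw [div_mul_eq_mul_div, Finset.sum_mul]
        congr 1
        refine sum_congr rfl fun x _ => ?_
        rw [mul_assoc, ← ee_add]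
        congr 2
        push_cast
        ring
      rw [sum_congr rfl h1, ← sum_div, sum_comm, div_eq_iff hpC]
      have h2 : ∀ x ∈ range p, ∑ a ∈ range p, ((chi p ((x : ℕ) : ℤ) : ℤ) : ℂ) * ee (a * (((m - x : ℤ) : ℝ) / p)) =
          if x = (m % p).toNat then ((chi p m : ℤ) : ℂ) * p else 0 := by
        intro x hx
        rw [← mul_sum, orth p hp0]
        rw [mem_range] at hx
        have hm0 := Int.emod_nonneg m (by omega : (p : ℤ) ≠ 0)
        have hm1 := Int.emod_lt_of_pos m (by omega : (0 : ℤ) < p)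
        by_cases hd : (p : ℤ) ∣ m - x
        · have h3 : m % p = x := by
            have : (x : ℤ) ≡ m [ZMOD p] := (Int.modEq_iff_dvd).2 hd
            unfold Int.ModEq at this
            rw [Int.emod_eq_of_lt (by omega) (by omega)] at this
            omega
          rw [if_pos hd, if_pos (by omega)]
          congr 2
          -- `chi` depends on the residue only
          have h4 : ((x : ℤ) : ZMod p) = (m : ZMod p) := by
            rw [ZMod.intCast_eq_intCast_iff_dvd_sub]
            exact hd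
          rw [chi_eq, chi_eq]
          have h5 : legendreSym p (x : ℤ) = legendreSym p m := by
            unfold legendreSym
            rw [h4]
          have h6 : ((p : ℤ) ∣ (x : ℤ)) ↔ ((p : ℤ) ∣ m) := by
            rw [← ZMod.intCast_zmod_eq_zero_iff_dvd, ← ZMod.intCast_zmod_eq_zero_iff_dvd, h4]
          rw [h5]
          simp only [h6]
        · have h3 : ¬ x = (m % p).toNat := by
            intro h
            apply hd
            have h4 : (x : ℤ) = m % p := by omega
            rw [h4]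
            exact Int.dvd_self_sub_emod
          rw [if_neg hd, if_neg h3, mul_zero]
      rw [sum_congr rfl h2, sum_ite_eq_of_mem']
      rw [mem_range]
      have hm0 := Int.emod_nonneg m (by omega : (p : ℤ) ≠ 0)
      have hm1 := Int.emod_lt_of_pos m (by omega : (0 : ℤ) < p)
      omega
    rw [← hfull, range_eq_Ico, Finset.sum_eq_sum_Ico_succ_bot hp0, hc0]
    simp [ee_zero]

end

end Pool.Agent.D0H92.QC
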