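import Pool.Agent.D0H92.QC.Leg
import Pool.Agent.D0H92.RG.Dig

set_option autoImplicit false

/-!
# Mean values of products of quadratic characters over sets of integers with missing digits
-/

namespace Pool.Agent.D0H92.QC

open Finset Pool.Agent.D0H92.AG Pool.Agent.D0H92.RG

/-- a combination of fractions with different primes as denominators -/
lemma sep {B M : ℕ} (hBM : B ∣ M) (D : Finset ℕ) (hD : ∀ p ∈ D, p.Prime) (hM : ∀ p ∈ D, ¬ p ∣ M)
    (e : D → ℤ) (i₀ : D) (h : ¬ (((i₀ : ℕ) : ℤ) ∣ e i₀)) :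
    Fr B (∏ p ∈ D, p) ((M : ℝ) * ∑ i : D, (e i : ℝ) / ((i : ℕ) : ℝ)) := by
  classical
  set w : ℕ := ∏ i : D, (i : ℕ) with hw
  have hwD : w = ∏ p ∈ D, p := by rw [hw, Finset.prod_coe_sort D (fun p => p)]
  have hpos : ∀ i : D, 0 < (i : ℕ) := fun i => (hD _ i.2).pos
  have hw0 : 0 < w := prod_pos fun i _ => hpos i
  have hcop : Nat.Coprime w B := by
    rw [hw]
    refine Nat.Coprime.prod_left fun i _ => ?_
    exact ((hD _ i.2).coprime_iff_not_dvd).2 fun h1 => hM _ i.2 (h1.trans hBM)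
  have hsplit : ∀ i : D, w = (i : ℕ) * ∏ j ∈ univ.erase i, (j : ℕ) := fun i => (mul_prod_erase univ _ (mem_univ i)).symm
  refine ⟨w, hw0, hwD.le, hcop, M * ∑ i : D, e i * ∏ j ∈ univ.erase i, ((j : ℕ) : ℤ), ?_, ?_⟩
  · have hw0' : (w : ℝ) ≠ 0 := by exact_mod_cast hw0.ne'
    rw [eq_div_iff hw0']
    push_cast
    rw [mul_assoc, Finset.sum_mul]
    congr 1
    refine sum_congr rfl fun i _ => ?_
    have h1 : (w : ℝ) = ((i : ℕ) : ℝ) * ∏ j ∈ univ.erase i, ((j : ℕ) : ℝ) := by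
      have := hsplit i
      exact_mod_cast this
    have h2 : ((i : ℕ) : ℝ) ≠ 0 := by exact_mod_cast (hpos i).ne'
    rw [h1]
    field_simp
  · intro hd
    have hp : Prime ((i₀ : ℕ) : ℤ) := Nat.prime_iff_prime_int.1 (hD _ i₀.2)
    have h1 : ((i₀ : ℕ) : ℤ) ∣ (w : ℤ) := by
      rw [Int.natCast_dvd_natCast, hsplit i₀]
      exact dvd_mul_right _ _
    have h2 := h1.trans hd
    have h3 : ¬ ((i₀ : ℕ) : ℤ) ∣ (M : ℤ) := by
      rw [Int.natCast_dvd_natCast]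
      exact hM _ i₀.2
    have h4 := (hp.dvd_or_dvd h2).resolve_left h3
    rw [← add_sum_erase univ _ (mem_univ i₀)] at h4
    have h5 : ((i₀ : ℕ) : ℤ) ∣ ∑ i ∈ univ.erase i₀, e i * ∏ j ∈ univ.erase i, ((j : ℕ) : ℤ) := by
      refine dvd_sum fun i hi => ?_
      apply Dvd.dvd.mul_left
      apply dvd_prod_of_mem
      rw [mem_erase]
      exact ⟨(ne_of_mem_erase hi).symm, mem_univ _⟩
    have h6 := (dvd_add_left h5).1 h4
    rcases hp.dvd_or_dvd h6 with h7 | h7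
    · exact h h7
    · obtain ⟨j, hj, hj'⟩ := (hp.dvd_finsetProd_iff _).1 h7
      rw [Int.natCast_dvd_natCast] at hj'
      have h8 := (Nat.prime_dvd_prime_iff_eq (hD _ i₀.2) (hD _ j.2)).1 hj'
      exact (ne_of_mem_erase hj) (Subtype.ext h8.symm)

/-- the sum over the frequencies with given denominators -/
lemma sum_freq {B M : ℕ} (hB : 2 ≤ B) (hBM : B ∣ M) (D : Finset ℕ) (hD : ∀ p ∈ D, p.Prime) (hM : ∀ p ∈ D, ¬ p ∣ M)
    (hne : D.Nonempty) {l : ℝ} (hl : 0 ≤ l) (hl1 : l ≤ 1) (K L N : ℕ) (hK : 1 ≤ K)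
    (hL : ((∏ p ∈ D, p : ℕ) : ℝ) < (B : ℝ) ^ L) (hN : K * L ≤ N) :
    ∑ a ∈ Fintype.piFinset (fun i : D => Ico 1 (i : ℕ)), bk B l N ((M : ℝ) * ∑ i : D, (a i : ℝ) / ((i : ℕ) : ℝ)) ≤
      (1 + 2 * B * l ^ K) ^ L - 1 := by
  classical
  refine sum_bk B hB hl hl1 _ _ (∏ p ∈ D, p) ?_ ?_ L K N hL hK hN
  · intro a ha
    obtain ⟨p, hp⟩ := hne
    rw [Fintype.mem_piFinset] at ha
    have h1 := sep hBM D hD hM (fun i => (a i : ℤ)) ⟨p, hp⟩ (by
      have h2 := mem_Ico.1 (ha ⟨p, hp⟩)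
      intro h3
      rw [Int.natCast_dvd_natCast] at h3
      have := Nat.le_of_dvd h2.1 h3
      omega)
    simpa using h1
  · intro a ha a' ha' hne'
    rw [Fintype.mem_piFinset] at ha ha'
    obtain ⟨i, hi⟩ : ∃ i, a i ≠ a' i := by
      by_contra hcon
      push Not at hcon
      exact hne' (funext hcon)
    have h1 := sep hBM D hD hM (fun i => (a i : ℤ) - a' i) i (by
      have h2 := mem_Ico.1 (ha i)
      have h3 := mem_Ico.1 (ha' i)
      rintro ⟨k, hk⟩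
      have hk0 : k = 0 := by
        by_contra hk0
        have h4 : ((i : ℕ) : ℤ) ≤ |(a i : ℤ) - a' i| := by
          rw [hk, abs_mul, Nat.abs_cast]
          exact le_mul_of_one_le_right (by positivity) (Int.one_le_abs hk0)
        have h5 : |(a i : ℤ) - a' i| < (i : ℕ) := by
          rw [abs_lt]; constructor <;> omega
        omega
      rw [hk0, mul_zero] at hk
      omega)
    have e : (M : ℝ) * ∑ i : D, (a i : ℝ) / ((i : ℕ) : ℝ) - M * ∑ i : D, (a' i : ℝ) / ((i : ℕ) : ℝ) =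
        (M : ℝ) * ∑ i : D, (((a i : ℤ) - a' i : ℤ) : ℝ) / ((i : ℕ) : ℝ) := by
      rw [← mul_sub, ← sum_sub_distrib]
      congr 1
      refine sum_congr rfl fun i _ => ?_
      push_cast
      ring
    rw [e]
    exact h1

lemma num_quarter {B W : ℕ} (hB : 2 ≤ B) (hW : 2 ≤ W) {x : ℝ} (hx : 0 ≤ x) (hx1 : x ≤ 1 / 100) :
    (1 + x) ^ (Nat.log B W + 1) - 1 ≤ (W : ℝ) ^ (1 / 4 : ℝ) := by
  have hW2 : (2 : ℝ) ≤ W := by exact_mod_cast hW
  have hB2 : (2 : ℝ) ≤ B := by exact_mod_cast hB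
  have h2 : (0.69 : ℝ) < Real.log 2 := by linarith [Real.log_two_gt_d9]
  have hlW : Real.log 2 ≤ Real.log W := Real.log_le_log (by norm_num) hW2
  have h1 : ((Nat.log B W : ℕ) : ℝ) * Real.log 2 ≤ Real.log W := by
    have h3 : ((B : ℝ) ^ (Nat.log B W)) ≤ W := by exact_mod_cast Nat.pow_log_le_self B (by omega)
    have h4 := Real.log_le_log (by positivity) h3
    rw [Real.log_pow] at h4
    have h5 : Real.log 2 ≤ Real.log B := Real.log_le_log (by norm_num) hB2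
    have h6 : (0 : ℝ) ≤ ((Nat.log B W : ℕ) : ℝ) := Nat.cast_nonneg _
    nlinarith
  have h3 : (1 + x) ^ (Nat.log B W + 1) ≤ Real.exp (x * (Nat.log B W + 1)) := by
    have h4 : 1 + x ≤ Real.exp x := by linarith [Real.add_one_le_exp x]
    calc (1 + x) ^ (Nat.log B W + 1) ≤ Real.exp x ^ (Nat.log B W + 1) := pow_le_pow_left₀ (by linarith) h4 _
      _ = _ := by rw [← Real.exp_nat_mul]; congr 1; push_cast; ring
  have h4 : x * (Nat.log B W + 1) ≤ Real.log W * (1 / 4) := by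
    have h5 : (0 : ℝ) ≤ ((Nat.log B W : ℕ) : ℝ) := Nat.cast_nonneg _
    have h6 : x * ((Nat.log B W : ℕ) + 1 : ℝ) ≤ 1 / 100 * ((Nat.log B W : ℕ) + 1) :=
      mul_le_mul_of_nonneg_right hx1 (by linarith)
    nlinarith
  rw [Real.rpow_def_of_pos (by linarith)]
  have h5 := Real.exp_le_exp.2 h4
  linarith

/-- **Mean values of products of quadratic characters.** -/
theorem prod_bound (c : ℤ) (g B : ℕ) (hg : 1 ≤ g) (hB : 2 ≤ B) {N : ℕ} (A : Fin N → Finset ℕ)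
    (hA : ∀ j, ∀ a ∈ A j, a < B) (h2 : ∀ j, 2 ≤ (A j).card) (K : ℕ) (hK : 1 ≤ K)
    (hx : 2 * B * lamB B ^ K ≤ 1 / 100) (O : Finset ℕ) (hO : ∀ p ∈ O, p.Prime) (hO2 : ∀ p ∈ O, p ≠ 2)
    (hM : ∀ p ∈ O, ¬ p ∣ g * B.factorial) (hN : K * (Nat.log B (∏ p ∈ O, p) + 1) ≤ N) :
    ‖∑ d ∈ Fintype.piFinset A, ∏ p ∈ O, ((chi p (val c g B d) : ℤ) : ℂ)‖ ≤
      (Fintype.piFinset A).card * ∏ p ∈ O, (3 * (p : ℝ) ^ (-(1 / 4) : ℝ)) := by
  classical
  set M := g * B.factorial with hMdef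
  have hBM : B ∣ M := (Nat.dvd_factorial (by omega) le_rfl).mul_left g
  have hl := lamB_nonneg B hB
  have hl1 := (lamB_lt_one B hB).le
  have hex : ∀ p : ℕ, ∃ c : ℕ → ℂ, p.Prime → p ≠ 2 → (∀ a, 0 < a → a < p → ‖c a‖ ≤ 2 / √p) ∧
      ∀ m : ℤ, ((chi p m : ℤ) : ℂ) - 1 / p = ∑ a ∈ Ico 1 p, c a * ee (((a : ℝ) / p) * m) := by
    intro p
    by_cases h : p.Prime ∧ p ≠ 2
    · have := Fact.mk h.1
      obtain ⟨c, hc⟩ := expand p h.2
      exact ⟨c, fun _ _ => hc⟩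
    · exact ⟨0, fun h1 h2 => absurd ⟨h1, h2⟩ h⟩
  choose cc hcc using hex
  set ψ : ℕ → ℤ → ℂ := fun p m => ((chi p m : ℤ) : ℂ) - 1 / p with hψ
  set C : ℝ := ((Fintype.piFinset A).card : ℝ) with hC
  -- one subset
  have hsub : ∀ D ⊆ O, ‖∑ d ∈ Fintype.piFinset A, ∏ p ∈ D, ψ p (val c g B d)‖ ≤
      C * ∏ p ∈ D, (2 * (p : ℝ) ^ (-(1 / 4) : ℝ)) := by
    intro D hDO
    rcases D.eq_empty_or_nonempty with rfl | hne
    · simp [hC]
    have hDp : ∀ p ∈ D, p.Prime := fun p hp => hO p (hDO hp)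
    have hDM : ∀ p ∈ D, ¬ p ∣ M := fun p hp => hM p (hDO hp)
    set W := ∏ p ∈ D, p with hW
    have hW2 : 2 ≤ W := by
      obtain ⟨p, hp⟩ := hne
      have h3 : p ∣ W := dvd_prod_of_mem _ hp
      have h4 : 0 < W := prod_pos fun q hq => (hDp q hq).pos
      exact (hDp p hp).two_le.trans (Nat.le_of_dvd h4 h3)
    have hWO : W ≤ ∏ p ∈ O, p := Nat.le_of_dvd (prod_pos fun q hq => (hO q hq).pos) (prod_dvd_prod_of_subset _ _ _ hDO)
    have hNL : K * (Nat.log B W + 1) ≤ N := by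
      refine le_trans ?_ hN
      exact Nat.mul_le_mul_left _ (Nat.succ_le_succ (Nat.log_mono_right hWO))
    have e1 : ∀ d : Fin N → ℕ, ∏ p ∈ D, ψ p (val c g B d) =
        ∑ a ∈ Fintype.piFinset (fun i : D => Ico 1 (i : ℕ)), (∏ i : D, cc i (a i)) *
          ee ((∑ i : D, (a i : ℝ) / ((i : ℕ) : ℝ)) * val c g B d) := by
      intro d
      rw [← Finset.prod_coe_sort D (fun p => ψ p (val c g B d))]
      have h3 : ∀ i : D, ψ i (val c g B d) = ∑ a ∈ Ico 1 (i : ℕ), cc i a * ee (((a : ℝ) / ((i : ℕ) : ℝ)) * val c g B d) :=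
        fun i => (hcc i (hDp _ i.2) (hO2 _ (hDO i.2))).2 _
      rw [prod_congr rfl fun i _ => h3 i, Finset.prod_univ_sum]
      refine sum_congr rfl fun a _ => ?_
      rw [prod_mul_distrib, ← ee_sum, Finset.sum_mul]
    rw [sum_congr rfl fun d _ => e1 d, sum_comm]
    have hcoef : ∀ a ∈ Fintype.piFinset (fun i : D => Ico 1 (i : ℕ)), ‖∏ i : D, cc i (a i)‖ ≤
        ∏ p ∈ D, (2 / √(p : ℝ)) := by
      intro a ha
      rw [Fintype.mem_piFinset] at ha
      rw [norm_prod, ← Finset.prod_coe_sort D (fun p => 2 / √(p : ℝ))]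
      refine prod_le_prod (fun _ _ => norm_nonneg _) fun i _ => ?_
      have h3 := mem_Ico.1 (ha i)
      exact (hcc i (hDp _ i.2) (hO2 _ (hDO i.2))).1 _ (by omega) h3.2
    calc ‖∑ a ∈ Fintype.piFinset (fun i : D => Ico 1 (i : ℕ)), ∑ d ∈ Fintype.piFinset A, (∏ i : D, cc i (a i)) *
          ee ((∑ i : D, (a i : ℝ) / ((i : ℕ) : ℝ)) * val c g B d)‖
        ≤ ∑ a ∈ Fintype.piFinset (fun i : D => Ico 1 (i : ℕ)), (∏ p ∈ D, (2 / √(p : ℝ))) *
            (C * bk B (lamB B) N ((M : ℝ) * ∑ i : D, (a i : ℝ) / ((i : ℕ) : ℝ))) := by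
          refine (norm_sum_le _ _).trans (sum_le_sum fun a ha => ?_)
          rw [← mul_sum, norm_mul]
          refine mul_le_mul (hcoef a ha) ?_ (norm_nonneg _) (prod_nonneg fun _ _ => by positivity)
          exact norm_sum c g B hB A hA h2 _
      _ = C * (∏ p ∈ D, (2 / √(p : ℝ))) *
            ∑ a ∈ Fintype.piFinset (fun i : D => Ico 1 (i : ℕ)), bk B (lamB B) N
              ((M : ℝ) * ∑ i : D, (a i : ℝ) / ((i : ℕ) : ℝ)) := by
          rw [mul_sum]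
          refine sum_congr rfl fun a _ => ?_
          ring
      _ ≤ C * (∏ p ∈ D, (2 / √(p : ℝ))) * (W : ℝ) ^ (1 / 4 : ℝ) := by
          apply mul_le_mul_of_nonneg_left _ (mul_nonneg (Nat.cast_nonneg _) (prod_nonneg fun _ _ => by positivity))
          have hlt : ((∏ p ∈ D, p : ℕ) : ℝ) < (B : ℝ) ^ (Nat.log B W + 1) := by
            exact_mod_cast Nat.lt_pow_succ_log_self (by omega) W
          refine (sum_freq hB hBM D hDp hDM hne hl hl1 K (Nat.log B W + 1) N hK hlt hNL).trans ?_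
          exact num_quarter hB hW2 (by positivity) hx
      _ = C * ∏ p ∈ D, (2 * (p : ℝ) ^ (-(1 / 4) : ℝ)) := by
          rw [mul_assoc, hW]
          congr 1
          push_cast
          rw [← Real.finset_prod_rpow _ _ (fun _ _ => Nat.cast_nonneg _), ← prod_mul_distrib]
          refine prod_congr rfl fun p hp => ?_
          have hp0 : (0 : ℝ) < p := by exact_mod_cast (hDp p hp).pos
          rw [Real.sqrt_eq_rpow, div_mul_eq_mul_div, mul_div_assoc, ← Real.rpow_sub hp0]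
          norm_num
  have e0 : ∀ d : Fin N → ℕ, ∏ p ∈ O, ((chi p (val c g B d) : ℤ) : ℂ) =
      ∑ D ∈ O.powerset, (∏ p ∈ D, ψ p (val c g B d)) * ∏ p ∈ O \ D, (1 / (p : ℂ)) := by
    intro d
    rw [← prod_add]
    refine prod_congr rfl fun p _ => ?_
    rw [hψ]
    ring
  rw [sum_congr rfl fun d _ => e0 d, sum_comm]
  calc ‖∑ D ∈ O.powerset, ∑ d ∈ Fintype.piFinset A, (∏ p ∈ D, ψ p (val c g B d)) * ∏ p ∈ O \ D, (1 / (p : ℂ))‖
      ≤ ∑ D ∈ O.powerset, C * ((∏ p ∈ D, (2 * (p : ℝ) ^ (-(1 / 4) : ℝ))) * ∏ p ∈ O \ D, (p : ℝ) ^ (-(1 / 4) : ℝ)) := by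
        refine (norm_sum_le _ _).trans (sum_le_sum fun D hD => ?_)
        rw [← Finset.sum_mul, norm_mul, ← mul_assoc]
        refine mul_le_mul (hsub D (mem_powerset.1 hD)) ?_ (norm_nonneg _)
          (mul_nonneg (Nat.cast_nonneg _) (prod_nonneg fun _ _ => by positivity))
        rw [norm_prod]
        refine prod_le_prod (fun _ _ => norm_nonneg _) fun p hp => ?_
        rw [norm_div, norm_one, Complex.norm_natCast]
        have hp1 : (1 : ℝ) ≤ p := by exact_mod_cast (hO p (mem_sdiff.1 hp).1).one_lt.le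
        rw [one_div, ← Real.rpow_neg_one]
        exact Real.rpow_le_rpow_of_exponent_le hp1 (by norm_num)
    _ = C * ∏ p ∈ O, (2 * (p : ℝ) ^ (-(1 / 4) : ℝ) + (p : ℝ) ^ (-(1 / 4) : ℝ)) := by
        rw [← mul_sum, prod_add]
    _ = C * ∏ p ∈ O, (3 * (p : ℝ) ^ (-(1 / 4) : ℝ)) := by
        congr 1
        refine prod_congr rfl fun p _ => ?_
        ring

end Pool.Agent.D0H92.QC
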