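import Pool.Agent.D0H92.QC.Main

set_option autoImplicit false

/-!
# The threshold of the question
-/

namespace Pool.Agent.D0H92.QC

open Finset Filter Pool.Agent.D0H92.AG Pool.Agent.D0H92.RG

/-- many primes below the threshold -/
lemma thr (κ : ℝ) (hκ : 0 < κ) : ∃ L₀ : ℝ, 1 ≤ L₀ ∧ ∀ L : ℝ, L₀ ≤ L →
    L ^ 2 * Real.log L ^ 2 ≤ Real.exp (κ * L) ∧ 4 * L ^ 2 ≤ total Set.univ (L ^ 2 * Real.log L ^ 2) ∧
    (L ^ 2 * Real.log L ^ 2) ^ (1 / 2 : ℝ) ≤ total Set.univ (L ^ 2 * Real.log L ^ 2) ∧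
    L ^ (1 + 1 / 2 : ℝ) ≤ total Set.univ (L ^ 2 * Real.log L ^ 2) ∧
    (total Set.univ (L ^ 2 * Real.log L ^ 2) : ℝ) ^ (1 - κ) ≤ total Set.univ (L ^ 2 * Real.log L ^ 2) / 2 := by
  classical
  have e1 : ∀ᶠ n : ℝ in atTop, Real.log (n + 1) ≤ 0.19 * n := by
    have h := (Real.isLittleO_log_id_atTop.def (by norm_num : (0 : ℝ) < 1 / 10))
    filter_upwards [h, eventually_ge_atTop 20] with n h1 h2
    have hl0 : 0 ≤ Real.log n := Real.log_nonneg (by linarith)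
    rw [id, Real.norm_eq_abs, Real.norm_eq_abs, abs_of_nonneg hl0, abs_of_pos (by linarith)] at h1
    have h3 : Real.log (n + 1) ≤ Real.log 2 + Real.log n := by
      rw [← Real.log_mul (by norm_num) (by linarith)]
      exact Real.log_le_log (by linarith) (by linarith)
    have := Real.log_two_lt_d9
    linarith
  obtain ⟨n₀, hn₀⟩ := eventually_atTop.1 e1
  have e2 : ∀ᶠ L : ℝ in atTop, L ^ 4 ≤ Real.exp (κ * L) := by
    have h := isLittleO_pow_exp_pos_mul_atTop 4 hκ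
    have h2 := h.def one_pos
    filter_upwards [h2, eventually_ge_atTop 0] with L h3 h4
    rw [one_mul, Real.norm_eq_abs, Real.norm_eq_abs, abs_of_nonneg (by positivity), abs_of_pos (Real.exp_pos _)] at h3
    exact h3
  have e3 : ∀ᶠ L : ℝ in atTop, 64 ≤ Real.log L := Real.tendsto_log_atTop.eventually_ge_atTop 64
  have e4 : ∀ᶠ L : ℝ in atTop, 2 ≤ L ^ κ := (tendsto_rpow_atTop hκ).eventually_ge_atTop 2
  obtain ⟨L₀, hL₀⟩ := eventually_atTop.1 (((e2.and e3).and e4).and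
    ((eventually_ge_atTop (max (2 * n₀) 16)).and (eventually_ge_atTop 1)))
  refine ⟨max L₀ 1, le_max_right _ _, fun L hL => ?_⟩
  obtain ⟨⟨⟨h1, h2⟩, h3⟩, h4, h5⟩ := hL₀ L ((le_max_left _ _).trans hL)
  have hL1 : 1 ≤ L := h5
  have hL16 : 16 ≤ L := (le_max_right _ _).trans h4
  have hLn : 2 * n₀ ≤ L := (le_max_left _ _).trans h4
  have hL0 : 0 < L := by linarith
  have hll : Real.log L ≤ L := (Real.log_le_sub_one_of_pos hL0).trans (by linarith)
  obtain ⟨T, hT⟩ : ∃ T, T = L ^ 2 * Real.log L ^ 2 := ⟨_, rfl⟩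
  rw [← hT]
  have hT4 : T ≤ L ^ 4 := by
    rw [hT]
    have : Real.log L ^ 2 ≤ L ^ 2 := pow_le_pow_left₀ (by linarith) hll 2
    nlinarith [sq_nonneg L]
  have hTL : L ≤ T := by
    rw [hT]
    have : 1 ≤ Real.log L ^ 2 := one_le_pow₀ (by linarith)
    nlinarith
  have hT0 : 0 < T := by linarith
  -- the number of primes
  have hmain : 4 * L ^ 2 ≤ (total Set.univ T : ℝ) := by
    rw [total_eq _ _ hT0]
    obtain ⟨x, hx⟩ : ∃ x, x = ⌈T⌉₊ - 1 := ⟨_, rfl⟩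
    rw [← hx]
    have h6 : x + 1 = ⌈T⌉₊ := by rw [hx]; exact Nat.sub_add_cancel (Nat.one_le_ceil_iff.2 hT0)
    have hx1 : (x : ℝ) < T := Nat.lt_ceil.1 (by omega)
    have hx2 : T ≤ x + 1 := by
      have := Nat.le_ceil T
      rw [← h6] at this
      push_cast at this
      exact this
    have hx3 : T / 2 ≤ x := by linarith
    have hx4 : n₀ ≤ x := by linarith
    have h7 : ((PQ Set.univ x).card : ℝ) = Nat.primeCounting x := by
      have : Nat.primeCounting x = ((range (x + 1)).filter Nat.Prime).card := by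
        rw [Nat.primeCounting, Nat.primeCounting', Nat.count_eq_card_filter_range]
      rw [this]
      unfold PQ
      congr 2
      ext p
      simp
    rw [h7]
    have h8 := Chebyshev.pi_ge x
    refine le_trans ?_ h8
    have hlx : 0 < Real.log x := Real.log_pos (by linarith)
    rw [le_div_iff₀ hlx]
    have h9 := hn₀ (x : ℝ) hx4
    have h10 : (x : ℝ) / 2 ≤ x * Real.log 2 - Real.log (x + 1) := by
      have := Real.log_two_gt_d9
      have hx0 : (0 : ℝ) ≤ x := Nat.cast_nonneg _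
      nlinarith
    refine le_trans ?_ h10
    have h11 : Real.log x ≤ 4 * Real.log L := by
      have := Real.log_le_log (by linarith) (hx1.le.trans hT4)
      rwa [Real.log_pow] at this
    have h12 : 4 * L ^ 2 * (4 * Real.log L) ≤ T / 4 := by
      rw [hT]
      have h13 : 64 * (L ^ 2 * Real.log L) ≤ Real.log L * (L ^ 2 * Real.log L) :=
        mul_le_mul_of_nonneg_right h2 (by positivity)
      nlinarith
    calc 4 * L ^ 2 * Real.log x ≤ 4 * L ^ 2 * (4 * Real.log L) := mul_le_mul_of_nonneg_left h11 (by positivity)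
      _ ≤ T / 4 := h12
      _ ≤ x / 2 := by linarith
  have hs1 : L ≤ (total Set.univ T : ℝ) := by nlinarith
  refine ⟨hT4.trans h1, hmain, ?_, ?_, ?_⟩
  · refine le_trans ?_ hmain
    rw [← Real.sqrt_eq_rpow]
    calc √T ≤ √(L ^ 4) := Real.sqrt_le_sqrt hT4
      _ = L ^ 2 := by rw [show L ^ 4 = (L ^ 2) ^ 2 by ring]; exact Real.sqrt_sq (by positivity)
      _ ≤ _ := by nlinarith [sq_nonneg L]
  · refine le_trans ?_ hmain
    calc L ^ (1 + 1 / 2 : ℝ) ≤ L ^ (2 : ℝ) := Real.rpow_le_rpow_of_exponent_le hL1 (by norm_num)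
      _ = L ^ 2 := by norm_num
      _ ≤ _ := by nlinarith [sq_nonneg L]
  · have hs0 : (0 : ℝ) < total Set.univ T := by linarith
    rw [Real.rpow_sub hs0, Real.rpow_one]
    apply div_le_div_of_nonneg_left hs0.le (by norm_num)
    exact h3.trans (Real.rpow_le_rpow hL0.le hs1 hκ.le)

open Classical in
/-- **The main theorem**, for strings of digits. -/
theorem main (B : ℕ) (hB : 2 ≤ B) (C δ ρ : ℝ) (hC : 0 ≤ C) (hδ : 0 < δ) (hρ : 0 < ρ) (hρ1 : ρ ≤ 1) :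
    ∃ κ : ℝ, 0 < κ ∧ κ < 1 ∧ ∃ N₀ : ℕ, ∀ N : ℕ, N₀ ≤ N → ∀ A : Fin N → Finset ℕ, (∀ j, ∀ a ∈ A j, a < B) →
      (∀ j, 2 ≤ (A j).card) → ∀ (c g : ℤ), g ≠ 0 → |(c : ℝ)| ≤ Real.exp (C * N) → |(g : ℝ)| ≤ Real.exp (C * N) →
      ∀ T : ℕ → Set ℕ,
      (((Fintype.piFinset A).filter fun t => ¬ ((∃ d, IsDiscOf d (num c g B t)) ∧ ∀ d, IsDiscOf d (num c g B t) →
          ((Fintype.piFinset A).card : ℝ) ^ κ ≤ |(d : ℝ)| ∧
          (Real.log |(d : ℝ)| ^ 2 ≤ split Set.univ d (Real.log |(d : ℝ)| ^ 2 * Real.log (Real.log |(d : ℝ)|) ^ 2) ∧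
            |2 * (split Set.univ d (Real.log |(d : ℝ)| ^ 2 * Real.log (Real.log |(d : ℝ)|) ^ 2) : ℝ) -
              total Set.univ (Real.log |(d : ℝ)| ^ 2 * Real.log (Real.log |(d : ℝ)|) ^ 2)| ≤
              (total Set.univ (Real.log |(d : ℝ)| ^ 2 * Real.log (Real.log |(d : ℝ)|) ^ 2) : ℝ) ^ (1 - κ)) ∧
          ∀ i : ℕ, (i : ℝ) ≤ ((Fintype.piFinset A).card : ℝ) ^ κ → Half κ δ ρ (T i) d)).card : ℝ) ≤
        ((Fintype.piFinset A).card : ℝ) ^ (1 - κ) := by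
  obtain ⟨κ₁, b₁, hκ₁, hb₁, H1⟩ := small B hB C hC
  obtain ⟨κ₂, b₂, hκ₂, hb₂, H2⟩ := single B hB C (1 / 2) (1 / 2) hC (by norm_num) (by norm_num) (by norm_num)
  obtain ⟨κ₃, b₃, hκ₃, hb₃, H3⟩ := single B hB C δ ρ hC hδ hρ hρ1
  have hlB : 0 < Real.log B := Real.log_pos (by exact_mod_cast (by omega : 1 < B))
  obtain ⟨b, hb, hbb1, hbb2, hbb3⟩ : ∃ b : ℝ, 0 < b ∧ b ≤ b₁ ∧ b ≤ b₂ ∧ b ≤ b₃ :=
    ⟨min b₁ (min b₂ b₃), lt_min hb₁ (lt_min hb₂ hb₃), min_le_left _ _, (min_le_right _ _).trans (min_le_left _ _),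
      (min_le_right _ _).trans (min_le_right _ _)⟩
  obtain ⟨κ, hκ, hκ1, hκk1, hκk2, hκk3, hκb⟩ : ∃ κ : ℝ, 0 < κ ∧ κ < 1 ∧ κ ≤ κ₁ ∧ κ ≤ κ₂ ∧ κ ≤ κ₃ ∧ κ ≤ b / (4 * Real.log B) := by
    refine ⟨min (1 / 2) (min κ₁ (min κ₂ (min κ₃ (b / (4 * Real.log B))))), ?_, ?_, ?_, ?_, ?_, ?_⟩
    · exact lt_min (by norm_num) (lt_min hκ₁ (lt_min hκ₂ (lt_min hκ₃ (by positivity))))
    · exact lt_of_le_of_lt (min_le_left _ _) (by norm_num)
    · exact (min_le_right _ _).trans (min_le_left _ _)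
    · exact (min_le_right _ _).trans ((min_le_right _ _).trans (min_le_left _ _))
    · exact (min_le_right _ _).trans ((min_le_right _ _).trans ((min_le_right _ _).trans (min_le_left _ _)))
    · exact (min_le_right _ _).trans ((min_le_right _ _).trans ((min_le_right _ _).trans (min_le_right _ _)))
  obtain ⟨N₁, hN₁⟩ := H1 κ hκ hκk1
  obtain ⟨N₂, hN₂⟩ := H2 κ hκ hκk2
  obtain ⟨N₃, hN₃⟩ := H3 κ hκ hκk3
  obtain ⟨L₀, hL₀1, hL₀⟩ := thr κ hκ
  have hl2 : 0 < Real.log 2 := Real.log_pos (by norm_num)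
  have e1 : ∀ᶠ N : ℕ in atTop, 4 ≤ Real.exp (b / 2 * N) := by
    have h1 : Tendsto (fun N : ℕ => b / 2 * (N : ℝ)) atTop atTop :=
      Tendsto.const_mul_atTop (by positivity) tendsto_natCast_atTop_atTop
    exact (Real.tendsto_exp_atTop.comp h1).eventually_ge_atTop 4
  have e2 : ∀ᶠ N : ℕ in atTop, L₀ ≤ κ * Real.log 2 * N :=
    (Tendsto.const_mul_atTop (by positivity) tendsto_natCast_atTop_atTop).eventually_ge_atTop _
  obtain ⟨N₄, hN₄⟩ := eventually_atTop.1 (e1.and e2)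
  refine ⟨κ, hκ, hκ1, N₁ + N₂ + N₃ + N₄ + 1, ?_⟩
  intro N hN A hA h2 c g hg hcN hgN T
  obtain ⟨hN5, hN6⟩ := hN₄ N (by omega)
  have hN1 : 1 ≤ N := by omega
  have hN1' : (1 : ℝ) ≤ N := by exact_mod_cast hN1
  have hN0 : (0 : ℝ) < N := by linarith
  have h3 := hN₁ N (by omega) c g hg hcN hgN A hA h2
  have h4 := hN₂ N (by omega) c g hg hcN hgN A hA h2 Set.univ
  have h5 := fun i => hN₃ N (by omega) c g hg hcN hgN A hA h2 (T i)
  set F := Fintype.piFinset A with hF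
  have hFB : (F.card : ℝ) ≤ (B : ℝ) ^ N := card_family B N A hA
  have hF2 : (2 : ℝ) ^ N ≤ F.card := card_family' N A h2
  have hF1 : (1 : ℝ) ≤ F.card := (one_le_pow₀ (by norm_num)).trans hF2
  have hF0 : (0 : ℝ) < F.card := by linarith
  have hB0 : (0 : ℝ) < B := by exact_mod_cast (by omega : 0 < B)
  have hFκ1 : 1 ≤ (F.card : ℝ) ^ κ := Real.one_le_rpow hF1 hκ.le
  set X : ℕ := ⌊(F.card : ℝ) ^ κ⌋₊ with hX
  have hXle : (X : ℝ) ≤ (F.card : ℝ) ^ κ := Nat.floor_le (by positivity)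
  set E1 := F.filter fun t => ¬ ((∃ d, IsDiscOf d (num c g B t)) ∧ ∀ d, IsDiscOf d (num c g B t) → (F.card : ℝ) ^ κ ≤ |(d : ℝ)|) with hE1
  set E2 := F.filter fun t => ¬ ∀ d, IsDiscOf d (num c g B t) → (F.card : ℝ) ^ κ ≤ |(d : ℝ)| → Half κ (1 / 2) (1 / 2) Set.univ d with hE2
  let E3 : ℕ → Finset (Fin N → ℕ) := fun i => F.filter fun t => ¬ ∀ d, IsDiscOf d (num c g B t) →
    (F.card : ℝ) ^ κ ≤ |(d : ℝ)| → Half κ δ ρ (T i) d
  set Bad := F.filter fun t => ¬ ((∃ d, IsDiscOf d (num c g B t)) ∧ ∀ d, IsDiscOf d (num c g B t) → (F.card : ℝ) ^ κ ≤ |(d : ℝ)| ∧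
          (Real.log |(d : ℝ)| ^ 2 ≤ split Set.univ d (Real.log |(d : ℝ)| ^ 2 * Real.log (Real.log |(d : ℝ)|) ^ 2) ∧
            |2 * (split Set.univ d (Real.log |(d : ℝ)| ^ 2 * Real.log (Real.log |(d : ℝ)|) ^ 2) : ℝ) -
              total Set.univ (Real.log |(d : ℝ)| ^ 2 * Real.log (Real.log |(d : ℝ)|) ^ 2)| ≤
              (total Set.univ (Real.log |(d : ℝ)| ^ 2 * Real.log (Real.log |(d : ℝ)|) ^ 2) : ℝ) ^ (1 - κ)) ∧
          ∀ i : ℕ, (i : ℝ) ≤ (F.card : ℝ) ^ κ → Half κ δ ρ (T i) d) with hBad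
  have hsub : Bad ⊆ (E1 ∪ E2) ∪ (range (X + 1)).biUnion E3 := by
    intro t ht
    rw [hBad, mem_filter] at ht
    obtain ⟨htF, ht2⟩ := ht
    by_contra hcon
    rw [mem_union, mem_union, mem_biUnion, not_or, not_or] at hcon
    obtain ⟨⟨hc1, hc2⟩, hc3⟩ := hcon
    have h6 : (∃ d, IsDiscOf d (num c g B t)) ∧ ∀ d, IsDiscOf d (num c g B t) → (F.card : ℝ) ^ κ ≤ |(d : ℝ)| := by
      by_contra h; exact hc1 (mem_filter.2 ⟨htF, h⟩)
    have h7 : ∀ d, IsDiscOf d (num c g B t) → (F.card : ℝ) ^ κ ≤ |(d : ℝ)| → Half κ (1 / 2) (1 / 2) Set.univ d := by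
      by_contra h; exact hc2 (mem_filter.2 ⟨htF, h⟩)
    apply ht2
    refine ⟨h6.1, fun d hd => ⟨h6.2 d hd, ?_, ?_⟩⟩
    all_goals have hdF := h6.2 d hd
    · have h8 := h7 d hd hdF
      have hd0 : 0 < |(d : ℝ)| := abs_pos.2 (by exact_mod_cast disc_ne hd.1)
      have hlogd : κ * Real.log 2 * N ≤ Real.log |(d : ℝ)| := by
        have h3 : ((2 : ℝ) ^ N) ^ κ ≤ |(d : ℝ)| := (Real.rpow_le_rpow (by positivity) hF2 hκ.le).trans hdF
        have h4 := Real.log_le_log (by positivity) h3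
        rw [Real.log_rpow (by positivity), Real.log_pow] at h4
        linarith
      obtain ⟨L, hL⟩ : ∃ L, L = Real.log |(d : ℝ)| := ⟨_, rfl⟩
      rw [← hL] at hlogd ⊢
      obtain ⟨g1, g2, g3, g4, g5⟩ := hL₀ L (hN6.trans hlogd)
      have h9 := h8 (L ^ 2 * Real.log L ^ 2) (by
        rw [Real.rpow_def_of_pos hd0, ← hL, mul_comm L κ]; exact g1) (by rw [← hL]; exact g4) g3
      refine ⟨?_, h9⟩
      have h10 := (abs_le.1 (h9.trans g5)).1
      linarith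
    · intro i hi
      by_contra h
      apply hc3
      refine ⟨i, mem_range.2 ?_, mem_filter.2 ⟨htF, fun hall => h (hall d hd hdF)⟩⟩
      have : i ≤ X := Nat.le_floor hi
      omega
  have hc := (card_le_card hsub).trans ((card_union_le _ _).trans (Nat.add_le_add (card_union_le _ _) card_biUnion_le))
  have hc' : (Bad.card : ℝ) ≤ (E1.card : ℝ) + E2.card + ∑ i ∈ range (X + 1), ((E3 i).card : ℝ) := by exact_mod_cast hc
  have hexp : ∀ b' : ℝ, b ≤ b' → (F.card : ℝ) * Real.exp (-(b' * N)) ≤ F.card * Real.exp (-(b * N)) := by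
    intro b' hb'
    apply mul_le_mul_of_nonneg_left _ hF0.le
    apply Real.exp_le_exp.2
    apply neg_le_neg
    exact mul_le_mul_of_nonneg_right hb' hN0.le
  have hE3 : ∑ i ∈ range (X + 1), ((E3 i).card : ℝ) ≤ ((X : ℝ) + 1) * (F.card * Real.exp (-(b * N))) := by
    calc ∑ i ∈ range (X + 1), ((E3 i).card : ℝ) ≤ ∑ _i ∈ range (X + 1), (F.card : ℝ) * Real.exp (-(b * N)) :=
          sum_le_sum fun i _ => (h5 i).trans (hexp _ hbb3)
      _ = _ := by rw [sum_const, card_range, nsmul_eq_mul]; push_cast; ring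
  have hFκ : ((F.card : ℝ) ^ κ) ^ 2 ≤ Real.exp (b / 2 * N) := by
    have h6 : (F.card : ℝ) ^ κ ≤ Real.exp (b / 4 * N) := by
      calc (F.card : ℝ) ^ κ ≤ ((B : ℝ) ^ N) ^ κ := Real.rpow_le_rpow (by linarith) hFB hκ.le
        _ = Real.exp (κ * Real.log B * N) := by
            rw [← Real.rpow_natCast, ← Real.rpow_mul hB0.le, Real.rpow_def_of_pos hB0]
            congr 1
            ring
        _ ≤ _ := by
            apply Real.exp_le_exp.2 (mul_le_mul_of_nonneg_right _ hN0.le)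
            rw [le_div_iff₀ (by positivity)] at hκb
            linarith
    calc ((F.card : ℝ) ^ κ) ^ 2 ≤ (Real.exp (b / 4 * N)) ^ 2 := pow_le_pow_left₀ (by positivity) h6 2
      _ = Real.exp (b / 2 * N) := by rw [← Real.exp_nat_mul]; congr 1; push_cast; ring
  have hfin : (Bad.card : ℝ) ≤ (4 * (F.card : ℝ) ^ κ) * (F.card * Real.exp (-(b * N))) := by
    have h6 := h3.trans (hexp _ hbb1)
    have h7 := h4.trans (hexp _ hbb2)
    have h8 : 0 < (F.card : ℝ) * Real.exp (-(b * N)) := by positivity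
    have h9 : ((X : ℝ) + 1) * (F.card * Real.exp (-(b * N))) ≤ ((F.card : ℝ) ^ κ + 1) * (F.card * Real.exp (-(b * N))) :=
      mul_le_mul_of_nonneg_right (by linarith) h8.le
    nlinarith
  refine hfin.trans ?_
  have h6 : (F.card : ℝ) ^ (1 - κ) = F.card / (F.card : ℝ) ^ κ := by rw [Real.rpow_sub hF0, Real.rpow_one]
  rw [h6, le_div_iff₀ (by positivity)]
  calc (4 * (F.card : ℝ) ^ κ) * (F.card * Real.exp (-(b * N))) * (F.card : ℝ) ^ κ
      = F.card * (4 * ((F.card : ℝ) ^ κ) ^ 2 * Real.exp (-(b * N))) := by ring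
    _ ≤ F.card * (Real.exp (b / 2 * N) * Real.exp (b / 2 * N) * Real.exp (-(b * N))) := by gcongr
    _ = F.card := by
        rw [← Real.exp_add, ← Real.exp_add]
        have : b / 2 * N + b / 2 * N + -(b * N) = 0 := by ring
        rw [this, Real.exp_zero, mul_one]

end Pool.Agent.D0H92.QC
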